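import Pool.Agent.Work.MP_0f91f8_co.Mul.Step

/-!
Chains: sequences in which every pair is in structured position.
-/

namespace Pool.Agent.Work.MP_0f91f8_co.Mul

open Finset

/-- Structured position of a pair. -/
structure Pr {G : Type} (f : ℕ → G) (Q : Set ℕ) (M K D Y l w : ℕ) : Prop where
  D_pos : 0 < D
  Y_pos : 0 < Y
  l_pos : 0 < l
  w_pos : 0 < w
  dvd_l : ∀ t, 0 < t → t ≤ M → t ∣ l
  lin : ∀ c : ℤ, |c| ≤ (M * l : ℕ) → 0 < (Y : ℤ) + c * w ∧ f ((Y : ℤ) + c * w).natAbs = f Y ∧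
    ∀ q ∈ Q, ¬ (q : ℤ) ∣ Y + c * w
  small : ∀ p, p.Prime → (p ≤ M ∨ p ∣ D ∨ p ∣ l) → p ∣ w
  cop : Y.Coprime w
  nu : ∀ q ∈ Q, ¬ q ∣ Y ^ 2 + (l * w) ^ 2
  size : K * (M * l * w) ≤ Y

/-- the numbers `x` used in the construction of a chain -/
def xx (l b : ℕ) (Y k : ℕ → ℕ) (i a : ℕ) : ℕ :=
  Y i * ∏ j ∈ Ico (i + 1) a, (2 * l * k j * b.factorial)

/-- the property of the `a`-th element of a chain -/
def Elt {G : Type} (f : ℕ → G) (Q : Set ℕ) (N K l b : ℕ) (Y k : ℕ → ℕ) (a : ℕ) : Prop :=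
  1 ≤ k a ∧ k a ≤ b ∧ 0 < Y a ∧ (Y a).Coprime b.factorial ∧
    (Y a).Coprime (∏ j ∈ range a, Y j) ∧ (∀ q ∈ Q, ¬ q ∣ Y a) ∧
    ∀ i < a, (∀ c : ℤ, |c| ≤ N →
      0 < (Y a : ℤ) + c * (k a * b.factorial * xx l b Y k i a : ℕ) ∧
      f ((Y a : ℤ) + c * (k a * b.factorial * xx l b Y k i a : ℕ)).natAbs = f (Y a) ∧
      ∀ q ∈ Q, ¬ (q : ℤ) ∣ Y a + c * (k a * b.factorial * xx l b Y k i a : ℕ)) ∧
      (∀ q ∈ Q, ¬ q ∣ (Y a) ^ 2 + (l * (k a * b.factorial * xx l b Y k i a)) ^ 2) ∧
      K * (N * (k a * b.factorial * xx l b Y k i a)) ≤ Y a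

theorem xx_congr {l b : ℕ} {Y k Y' k' : ℕ → ℕ} {a : ℕ} (hY : ∀ j < a, Y' j = Y j)
    (hk : ∀ j < a, k' j = k j) {i : ℕ} (hi : i < a) : xx l b Y' k' i a = xx l b Y k i a := by
  unfold xx
  rw [hY i hi]
  congr 1
  refine prod_congr rfl fun j hj => ?_
  rw [hk j (mem_Ico.1 hj).2]

theorem Elt.congr {G : Type} {f : ℕ → G} {Q : Set ℕ} {N K l b : ℕ} {Y k Y' k' : ℕ → ℕ} {a : ℕ}
    (hY : ∀ j ≤ a, Y' j = Y j) (hk : ∀ j ≤ a, k' j = k j) (h : Elt f Q N K l b Y k a) :
    Elt f Q N K l b Y' k' a := by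
  have h1 : ∏ j ∈ range a, Y' j = ∏ j ∈ range a, Y j :=
    prod_congr rfl fun j hj => hY j (mem_range.1 hj).le
  have h2 : ∀ i < a, xx l b Y' k' i a = xx l b Y k i a := fun i hi =>
    xx_congr (fun j hj => hY j hj.le) (fun j hj => hk j hj.le) hi
  unfold Elt at h ⊢
  rw [hY a le_rfl, hk a le_rfl, h1]
  obtain ⟨g1, g2, g3, g4, g5, g6, g7⟩ := h
  refine ⟨g1, g2, g3, g4, g5, g6, fun i hi => ?_⟩
  rw [h2 i hi]
  exact g7 i hi

theorem exists_elts (hcrt : Crt) {G : Type} [Finite G] (f : ℕ → G) {Q : Set ℕ}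
    (hQ : ∀ q ∈ Q, q.Prime) (hS : Siev Q) (n N K l b₁ : ℕ) :
    ∃ b ≥ b₁, ∃ Y k : ℕ → ℕ, ∀ a < n, Elt f Q N K l b Y k a := by
  classical
  obtain ⟨b₀, hb₀⟩ := step hcrt f hQ hS n N
  refine ⟨max b₀ b₁, le_max_right _ _, ?_⟩
  set b : ℕ := max b₀ b₁ with hb
  have hst := hb₀ b (le_max_left _ _)
  have key : ∀ m ≤ n, ∃ Y k : ℕ → ℕ, ∀ a < m, Elt f Q N K l b Y k a := by
    intro m
    induction m with
    | zero => exact fun _ => ⟨fun _ => 0, fun _ => 0, fun a ha => absurd ha (Nat.not_lt_zero a)⟩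
    | succ m ih =>
      intro hmn
      obtain ⟨Y, k, hYk⟩ := ih (by omega)
      have hPpos : 0 < ∏ j ∈ range m, Y j :=
        prod_pos fun j hj => (hYk j (mem_range.1 hj)).2.2.1
      have hPp : ∀ p, p.Prime → p ∣ ∏ j ∈ range m, Y j → b < p ∧ p ∉ Q := by
        intro p hp hdvd
        obtain ⟨j, hj, hpj⟩ := (Prime.dvd_finsetProd_iff hp.prime _).1 hdvd
        have hE := hYk j (mem_range.1 hj)
        refine ⟨?_, fun hpQ => hE.2.2.2.2.2.1 p hpQ hpj⟩
        by_contra hle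
        have h1 : p ∣ b.factorial := (hp.dvd_factorial).2 (by omega)
        have h2 := Nat.dvd_gcd hpj h1
        rw [hE.2.2.2.1.gcd_eq_one] at h2
        exact hp.one_lt.ne' (Nat.dvd_one.1 h2)
      set x : Fin n → ℕ := fun i => if (i : ℕ) < m then xx l b Y k i m else 0 with hx
      obtain ⟨Yn, kn, h1, h2, h3, h4, h5, h6, h7, h8⟩ := hst l _ hPpos hPp x
        (K * (N * (b * b.factorial * ∑ i, x i)))
      refine ⟨Function.update Y m Yn, Function.update k m kn, fun a ha => ?_⟩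
      have hYo : ∀ j < m, Function.update Y m Yn j = Y j := fun j hj =>
        Function.update_of_ne (by omega) _ _
      have hko : ∀ j < m, Function.update k m kn j = k j := fun j hj =>
        Function.update_of_ne (by omega) _ _
      rcases Nat.lt_succ_iff_lt_or_eq.1 ha with ham | rfl
      · exact (hYk a ham).congr (fun j hj => hYo j (by omega)) (fun j hj => hko j (by omega))
      · have hprod : ∏ j ∈ range a, Function.update Y a Yn j = ∏ j ∈ range a, Y j :=
          prod_congr rfl fun j hj => hYo j (mem_range.1 hj)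
        unfold Elt
        rw [Function.update_self, Function.update_self, hprod]
        refine ⟨h1, h2, h4, h5, h6, h7, fun i hi => ?_⟩
        rw [xx_congr hYo hko hi]
        have hxi : x ⟨i, by omega⟩ = xx l b Y k i a := by
          simp only [hx]
          rw [if_pos hi]
        have h9 := h8 ⟨i, by omega⟩
        rw [hxi] at h9
        refine ⟨h9.1, h9.2, ?_⟩
        refine le_trans ?_ h3
        have h10 : xx l b Y k i a ≤ ∑ i, x i := by
          rw [← hxi]
          exact single_le_sum (f := x) (fun _ _ => Nat.zero_le _) (mem_univ _)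
        have h11 : kn * b.factorial * xx l b Y k i a ≤ b * b.factorial * ∑ i, x i :=
          Nat.mul_le_mul (Nat.mul_le_mul_right _ h2) h10
        exact Nat.mul_le_mul_left _ (Nat.mul_le_mul_left _ h11)
  exact key n le_rfl

theorem chain (hcrt : Crt) {G : Type} [Finite G] (f : ℕ → G) {Q : Set ℕ}
    (hQ : ∀ q ∈ Q, q.Prime) (hS : Siev Q) (n M K : ℕ) :
    ∃ (l : ℕ) (D Y X : ℕ → ℕ), (∀ a < n, 0 < X a ∧ X a = D a * Y a ∧ (D a).Coprime (Y a) ∧
      ∀ q ∈ Q, ¬ q ∣ Y a) ∧
      ∀ a < n, ∀ i < a, ∃ w, X i = 2 * D a * l * w ∧ Pr f Q M K (D a) (Y a) l w := by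
  classical
  set l : ℕ := M.factorial with hl
  obtain ⟨b, hb, Y, k, hYk⟩ := exists_elts hcrt f hQ hS n (M * l) K l (max M 2)
  have hbM : M ≤ b := le_trans (le_max_left _ _) hb
  have hb2 : 2 ≤ b := le_trans (le_max_right _ _) hb
  have hlpos : 0 < l := Nat.factorial_pos M
  have hbpos : 0 < b.factorial := Nat.factorial_pos b
  set D : ℕ → ℕ := fun a => ∏ j ∈ Ico (a + 1) n, (2 * l * k j * b.factorial) with hD
  -- the factors are smooth
  have hfac : ∀ j < n, ∀ p, p.Prime → p ∣ 2 * l * k j * b.factorial → p ∣ b.factorial := by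
    intro j hj p hp hdvd
    obtain ⟨h1, h2, -⟩ := hYk j hj
    rw [hp.dvd_factorial]
    rcases hp.dvd_mul.1 hdvd with h | h
    · rcases hp.dvd_mul.1 h with h | h
      · rcases hp.dvd_mul.1 h with h | h
        · exact le_trans (Nat.le_of_dvd two_pos h) hb2
        · exact le_trans ((hp.dvd_factorial).1 h) hbM
      · exact le_trans (Nat.le_of_dvd (by omega) h) h2
    · exact (hp.dvd_factorial).1 h
  have hDp : ∀ a, ∀ p, p.Prime → p ∣ D a → p ∣ b.factorial := by
    intro a p hp hdvd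
    obtain ⟨j, hj, hpj⟩ := (Prime.dvd_finsetProd_iff hp.prime _).1 hdvd
    exact hfac j (mem_Ico.1 hj).2 p hp hpj
  have hDpos : ∀ a, 0 < D a := by
    intro a
    refine prod_pos fun j hj => ?_
    have := (hYk j (mem_Ico.1 hj).2).1
    positivity
  have hcopD : ∀ a < n, (D a).Coprime (Y a) := by
    intro a ha
    refine Nat.coprime_of_dvd ?_
    intro p hp h1 h2
    have h3 := Nat.dvd_gcd h2 (hDp a p hp h1)
    rw [(hYk a ha).2.2.2.1.gcd_eq_one] at h3
    exact hp.one_lt.ne' (Nat.dvd_one.1 h3)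
  refine ⟨l, D, Y, fun a => D a * Y a, ?_, ?_⟩
  · intro a ha
    exact ⟨Nat.mul_pos (hDpos a) (hYk a ha).2.2.1, rfl, hcopD a ha, (hYk a ha).2.2.2.2.2.1⟩
  · intro a ha i hi
    have hE := hYk a ha
    obtain ⟨g1, g2, g3, g4, g5, g6, g7⟩ := hE
    obtain ⟨g8, g9, g10⟩ := g7 i hi
    have hYi : 0 < Y i := (hYk i (by omega)).2.2.1
    have hxpos : 0 < xx l b Y k i a := by
      unfold xx
      refine Nat.mul_pos hYi (prod_pos fun j hj => ?_)
      have := (hYk j (by have := (mem_Ico.1 hj).2; omega)).1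
      positivity
    set w : ℕ := k a * b.factorial * xx l b Y k i a with hw
    have hwpos : 0 < w := by positivity
    have hbw : b.factorial ∣ w := by
      rw [hw]
      exact (Dvd.intro_left _ rfl : b.factorial ∣ k a * b.factorial).mul_right _
    refine ⟨w, ?_, ?_⟩
    · have e1 : D i = (∏ j ∈ Ico (i + 1) a, (2 * l * k j * b.factorial)) *
          ((2 * l * k a * b.factorial) * D a) := by
        have e2 := prod_eq_prod_Ico_succ_bot ha (fun j => 2 * l * k j * b.factorial)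
        have e3 := prod_Ico_consecutive (fun j => 2 * l * k j * b.factorial)
          (show i + 1 ≤ a by omega) ha.le
        simp only [hD]
        rw [← e3, e2]
      show D i * Y i = 2 * D a * l * w
      rw [e1, hw]
      unfold xx
      ring
    · refine ⟨hDpos a, g3, hlpos, hwpos, ?_, ?_, ?_, ?_, g9, ?_⟩
      · intro t ht htM
        exact Nat.dvd_factorial ht htM
      · intro c hc
        exact g8 c hc
      · intro p hp h
        refine dvd_trans ?_ hbw
        rcases h with h | h | h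
        · exact (hp.dvd_factorial).2 (le_trans h hbM)
        · exact hDp a p hp h
        · exact (hp.dvd_factorial).2 (le_trans ((hp.dvd_factorial).1 h) hbM)
      · refine Nat.coprime_of_dvd ?_
        intro p hp h1 h2
        have hpb : p ∣ b.factorial ∨ p ∣ ∏ j ∈ range a, Y j := by
          rw [hw] at h2
          unfold xx at h2
          rcases hp.dvd_mul.1 h2 with h | h
          · rcases hp.dvd_mul.1 h with h | h
            · exact Or.inl (dvd_trans h (Nat.dvd_factorial (by omega) g2))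
            · exact Or.inl h
          · rcases hp.dvd_mul.1 h with h | h
            · exact Or.inr (dvd_trans h (dvd_prod_of_mem Y (mem_range.2 hi)))
            · obtain ⟨j, hj, hpj⟩ := (Prime.dvd_finsetProd_iff hp.prime _).1 h
              exact Or.inl (hfac j (by have := (mem_Ico.1 hj).2; omega) p hp hpj)
        rcases hpb with h | h
        · have h3 := Nat.dvd_gcd h1 h
          rw [g4.gcd_eq_one] at h3
          exact hp.one_lt.ne' (Nat.dvd_one.1 h3)
        · have h3 := Nat.dvd_gcd h1 h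
          rw [g5.gcd_eq_one] at h3
          exact hp.one_lt.ne' (Nat.dvd_one.1 h3)
      · exact g10

end Pool.Agent.Work.MP_0f91f8_co.Mul
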