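import Mathlib

/-!
# Avoiding few residues modulo large primes
-/

namespace Pool.Agent.Work.MP_0f91f8_co.Mul

theorem crt (R : ℕ) (S : Finset ℤ) (P : Finset ℕ)
    (hP : ∀ p ∈ P, p.Prime ∧ S.card < p ∧ ¬ p ∣ R) (A₀ : ℕ) :
    ∃ A : ℕ, A₀ ≤ A ∧ ∀ p ∈ P, ∀ σ ∈ S, ¬ (p : ℤ) ∣ 1 + R * (A + σ) := by
  classical
  induction P using Finset.induction_on with
  | empty => exact ⟨A₀, le_refl _, by simp⟩
  | insert p P hp ih =>
    obtain ⟨A', hA', h'⟩ := ih (fun q hq => hP q (Finset.mem_insert_of_mem hq))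
    obtain ⟨hpp, hcard, hpR⟩ := hP p (Finset.mem_insert_self _ _)
    have hpZ : Prime (p : ℤ) := Nat.prime_iff_prime_int.mp hpp
    have hcop : ¬ p ∣ ∏ q ∈ P, q := by
      intro hd
      obtain ⟨q, hq, hdq⟩ := (hpp.prime.dvd_finsetProd_iff _).mp hd
      have hqp := (hP q (Finset.mem_insert_of_mem hq)).1
      have : p = q := (Nat.prime_dvd_prime_iff_eq hpp hqp).mp hdq
      exact hp (this ▸ hq)
    obtain ⟨j, hj⟩ : ∃ j : ℕ, ∀ σ ∈ S, ¬ (p : ℤ) ∣ 1 + R * ((A' + j * ∏ q ∈ P, q : ℕ) + σ) := by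
      by_contra hcon
      push Not at hcon
      choose s hs hd using hcon
      have hinj : Set.InjOn s (Finset.range p : Set ℕ) := by
        intro i hi j hj hij
        have h1 := hd i
        have h2 := hd j
        rw [hij] at h1
        have h3 := dvd_sub h1 h2
        have h4 : (1 + (R : ℤ) * ((A' + i * ∏ q ∈ P, q : ℕ) + s j)) -
            (1 + (R : ℤ) * ((A' + j * ∏ q ∈ P, q : ℕ) + s j)) =
            (R : ℤ) * (((∏ q ∈ P, q : ℕ) : ℤ) * ((i : ℤ) - j)) := by
          push_cast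
          ring
        rw [h4] at h3
        rcases hpZ.dvd_or_dvd h3 with h5 | h5
        · exact absurd (Int.natCast_dvd_natCast.mp h5) hpR
        rcases hpZ.dvd_or_dvd h5 with h6 | h6
        · exact absurd (Int.natCast_dvd_natCast.mp h6) hcop
        have hi' : i < p := by simpa using hi
        have hj' : j < p := by simpa using hj
        have h7 : (i : ℤ) - j = 0 := by
          apply Int.eq_zero_of_abs_lt_dvd h6
          rw [abs_lt]
          constructor <;> omega
        omega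
      have hle := Finset.card_le_card_of_injOn s (s := Finset.range p) (t := S)
        (fun i _ => hs i) hinj
      rw [Finset.card_range] at hle
      omega
    refine ⟨A' + j * ∏ q ∈ P, q, by omega, ?_⟩
    intro q hq σ hσ
    rcases Finset.mem_insert.mp hq with rfl | hq'
    · exact hj σ hσ
    · intro hd
      apply h' q hq' σ hσ
      have h1 : (q : ℤ) ∣ (R : ℤ) * ((j : ℤ) * ((∏ q ∈ P, q : ℕ) : ℤ)) := by
        apply Dvd.dvd.mul_left
        apply Dvd.dvd.mul_left
        exact_mod_cast Finset.dvd_prod_of_mem (fun q => q) hq'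
      have h2 := dvd_sub hd h1
      have h3 : (1 + (R : ℤ) * ((A' + j * ∏ q ∈ P, q : ℕ) + σ)) -
          (R : ℤ) * ((j : ℤ) * ((∏ q ∈ P, q : ℕ) : ℤ)) = 1 + (R : ℤ) * (A' + σ) := by
        push_cast
        ring
      rw [h3] at h2
      exact h2

end Pool.Agent.Work.MP_0f91f8_co.Mul
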