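import Mathlib

/-!
# Colourings by multiplicative functions: common definitions

`Sparse Q`: the number of elements of `Q` up to `x ^ 2` is `o(x)`.
`Siev Q`: the conclusion of the sieve lemma.
-/

namespace Pool.Agent.Work.MP_0f91f8_co.Mul

/-- The set `Q` has `o(x)` elements up to `x ^ 2`. -/
def Sparse (Q : Set ℕ) : Prop :=
  ∀ k : ℕ, ∃ x₀ : ℕ, ∀ x ≥ x₀, k * {q ∈ Q | q ≤ x ^ 2}.ncard ≤ x

/-- The sieve statement for `Q`. -/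
def Siev (Q : Set ℕ) : Prop :=
  ∀ H : ℕ, ∃ b₀ : ℕ, ∀ b ≥ b₀, ∀ m : ℕ, 0 < m → (∀ q ∈ Q, b < q → ¬ q ∣ m) →
    ∀ E : Finset (ℕ × ℕ), E.card ≤ H → ∀ ε : ℝ, 0 < ε → ∃ X₁ : ℕ, ∀ X ≥ X₁, ∃ A : ℕ,
      X ≤ A ∧ (A : ℝ) ≤ (1 + ε) * X ∧
        ∀ q ∈ Q, b < q → ∀ p ∈ E, ¬ q ∣ (m * A + p.1) ^ 2 + p.2 ^ 2

/-- `f` is multiplicative (for coprime arguments). -/
def Mult {S : Type} [Mul S] (f : ℕ → S) : Prop :=
  ∀ m n : ℕ, 0 < m → 0 < n → m.Coprime n → f (m * n) = f m * f n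

/-- The set `A` contains all multiples `m₀ * n`, `n` coprime to `m₀`, for suitable `m₀` with
large prime factors outside `Q` and `f m₀ = 1`. -/
def Rich {G : Type} [One G] (f : ℕ → G) (Q A : Set ℕ) : Prop :=
  ∀ B : ℕ, ∃ m₀ : ℕ, 0 < m₀ ∧ (∀ p, p.Prime → p ∣ m₀ → B < p ∧ p ∉ Q) ∧ f m₀ = 1 ∧
    ∀ n, 0 < n → m₀.Coprime n → m₀ * n ∈ A

end Pool.Agent.Work.MP_0f91f8_co.Mul
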