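import Pool.Agent.Work.MP_0f91f8_co.Mul.Defs

/-!
# Multipliers of prescribed approximate size
-/

namespace Pool.Agent.Work.MP_0f91f8_co.Mul

theorem mult_one {G : Type} [CommGroup G] (f : ℕ → G) (hf : Mult f) : f 1 = 1 := by
  have h := hf 1 1 one_pos one_pos (Nat.coprime_one_left 1)
  simpa using h

theorem mult_prod {G : Type} [CommGroup G] (f : ℕ → G) (hf : Mult f) (s : Finset ℕ)
    (t : ℕ → ℕ) (ht : ∀ i ∈ s, 0 < t i)
    (hc : ∀ i ∈ s, ∀ j ∈ s, i ≠ j → (t i).Coprime (t j)) :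
    f (∏ i ∈ s, t i) = ∏ i ∈ s, f (t i) := by
  classical
  induction s using Finset.induction_on with
  | empty => simpa using mult_one f hf
  | insert a s ha ih =>
    rw [Finset.prod_insert ha, Finset.prod_insert ha]
    rw [hf _ _ (ht a (Finset.mem_insert_self _ _))
      (Finset.prod_pos fun i hi => ht i (Finset.mem_insert_of_mem hi))
      (Nat.Coprime.prod_right fun i hi => hc a (Finset.mem_insert_self _ _) i
        (Finset.mem_insert_of_mem hi) (fun h => ha (h ▸ hi)))]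
    rw [ih (fun i hi => ht i (Finset.mem_insert_of_mem hi))
      (fun i hi j hj => hc i (Finset.mem_insert_of_mem hi) j (Finset.mem_insert_of_mem hj))]

/-- The real analysis of the sizes. -/
theorem size_choice (g m₀ W : ℕ) (hg : 0 < g) (hm : 0 < m₀) (hW : 0 < W) (J : ℕ) (ε : ℝ)
    (hε : 0 < ε) :
    ∃ ε' : ℝ, 0 < ε' ∧ ∀ X₁ : ℕ, ∃ S₀ : ℝ, ∀ S ≥ S₀, ∃ X : ℕ, X₁ ≤ X ∧
      S ≤ m₀ * ((W : ℝ) * X) ^ g ∧
      (m₀ : ℝ) * ((W : ℝ) * ((1 + ε') * X + J)) ^ g ≤ (1 + ε) * S := by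
  have hg' : (g : ℕ) ≠ 0 := hg.ne'
  set c : ℝ := (1 + ε) ^ ((g : ℝ)⁻¹) with hc
  have hcg : c ^ g = 1 + ε := Real.rpow_inv_natCast_pow (by linarith) hg'
  have hc1 : 1 < c := by
    apply Real.one_lt_rpow (by linarith)
    positivity
  set δ : ℝ := (c - 1) / 2 with hδ
  have hδ0 : 0 < δ := by rw [hδ]; linarith
  have hm0 : (0 : ℝ) < m₀ := by exact_mod_cast hm
  have hW0 : (0 : ℝ) < W := by exact_mod_cast hW
  refine ⟨δ, hδ0, fun X₁ => ?_⟩
  set Y₀ : ℝ := max (X₁ : ℝ) ((1 + δ + J) / δ) with hY₀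
  have hY₀1 : (X₁ : ℝ) ≤ Y₀ := le_max_left _ _
  have hY₀2 : (1 + δ + J) / δ ≤ Y₀ := le_max_right _ _
  have hY₀0 : 0 < Y₀ := lt_of_lt_of_le (by positivity) hY₀2
  refine ⟨m₀ * (W * Y₀) ^ g, fun S hS => ?_⟩
  set Z : ℝ := (S / m₀) ^ ((g : ℝ)⁻¹) with hZ
  have hSm : (W * Y₀) ^ g ≤ S / m₀ := by
    rw [le_div_iff₀ hm0]
    calc (W * Y₀) ^ g * m₀ = m₀ * (W * Y₀) ^ g := by ring
      _ ≤ S := hS
  have hSm0 : 0 ≤ S / m₀ := le_trans (by positivity) hSm
  have hZg : Z ^ g = S / m₀ := Real.rpow_inv_natCast_pow hSm0 hg'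
  have hZ0 : 0 ≤ Z := Real.rpow_nonneg hSm0 _
  have hZY : W * Y₀ ≤ Z := by
    apply le_of_pow_le_pow_left₀ hg' hZ0
    rw [hZg]
    exact hSm
  set Y : ℝ := Z / W with hY
  have hYY : Y₀ ≤ Y := by
    rw [hY, le_div_iff₀ hW0]
    linarith
  have hYZ : W * Y = Z := by
    rw [hY]
    field_simp
  have hX1 : Y ≤ (⌈Y⌉₊ : ℝ) := Nat.le_ceil Y
  have hX2 : (⌈Y⌉₊ : ℝ) < Y + 1 := Nat.ceil_lt_add_one (by linarith)
  refine ⟨⌈Y⌉₊, ?_, ?_, ?_⟩
  · have : (X₁ : ℝ) ≤ (⌈Y⌉₊ : ℝ) := by linarith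
    exact_mod_cast this
  · have h1 : Z ≤ W * (⌈Y⌉₊ : ℝ) := by
      rw [← hYZ]
      exact mul_le_mul_of_nonneg_left hX1 hW0.le
    have h2 : Z ^ g ≤ (W * (⌈Y⌉₊ : ℝ)) ^ g := pow_le_pow_left₀ hZ0 h1 g
    rw [hZg, div_le_iff₀ hm0] at h2
    linarith
  · have h3 : (1 + δ + J) ≤ δ * Y := by
      have : (1 + δ + J) / δ ≤ Y := hY₀2.trans hYY
      rw [div_le_iff₀ hδ0] at this
      linarith
    have h4 : (1 + δ) * (⌈Y⌉₊ : ℝ) + J ≤ c * Y := by
      have h5 : (1 + δ) * (⌈Y⌉₊ : ℝ) ≤ (1 + δ) * (Y + 1) :=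
        mul_le_mul_of_nonneg_left hX2.le (by linarith)
      have h6 : c = 1 + 2 * δ := by rw [hδ]; ring
      rw [h6]
      nlinarith
    have h7 : W * ((1 + δ) * (⌈Y⌉₊ : ℝ) + J) ≤ c * Z := by
      calc W * ((1 + δ) * (⌈Y⌉₊ : ℝ) + J) ≤ W * (c * Y) :=
            mul_le_mul_of_nonneg_left h4 hW0.le
        _ = c * (W * Y) := by ring
        _ = c * Z := by rw [hYZ]
    have h8 : (W * ((1 + δ) * (⌈Y⌉₊ : ℝ) + J)) ^ g ≤ (c * Z) ^ g :=
      pow_le_pow_left₀ (by positivity) h7 g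
    calc (m₀ : ℝ) * (W * ((1 + δ) * (⌈Y⌉₊ : ℝ) + J)) ^ g ≤ m₀ * (c * Z) ^ g :=
          mul_le_mul_of_nonneg_left h8 hm0.le
      _ = (1 + ε) * S := by
          rw [mul_pow, hcg, hZg]
          field_simp

theorem exists_T {G : Type} [CommGroup G] [Finite G] (f : ℕ → G) (hf : Mult f)
    {Q : Set ℕ} (hQ : ∀ q ∈ Q, q.Prime) (hS : Siev Q) {A : Set ℕ} (hA : Rich f Q A)
    (B : ℕ) (ε : ℝ) (hε : 0 < ε) :
    ∃ S₀ : ℝ, ∀ S ≥ S₀, ∃ T : ℕ, 0 < T ∧ S ≤ T ∧ (T : ℝ) ≤ (1 + ε) * S ∧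
      (∀ p, p.Prime → p ∣ T → B < p ∧ p ∉ Q) ∧ f T = 1 ∧
      ∀ n, 0 < n → T.Coprime n → T * n ∈ A := by
  classical
  have := Fintype.ofFinite G
  obtain ⟨m₀, hm0, hm1, hm2, hm3⟩ := hA B
  set g := Fintype.card G with hg
  have hg0 : 0 < g := Fintype.card_pos
  set J := g * g + 1 with hJ
  obtain ⟨b₀, hb₀⟩ := hS J
  set b := max b₀ (max B J) with hb
  have hbb : b₀ ≤ b := le_max_left _ _
  have hbB : B ≤ b := le_trans (le_max_left _ _) (le_max_right _ _)
  have hbJ : J ≤ b := le_trans (le_max_right _ _) (le_max_right _ _)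
  set W := b.factorial * m₀ with hWd
  have hW0 : 0 < W := Nat.mul_pos (Nat.factorial_pos b) hm0
  have hWQ : ∀ q ∈ Q, b < q → ¬ q ∣ W := by
    intro q hq hbq hd
    rcases (hQ q hq).dvd_mul.mp hd with h | h
    · have := ((hQ q hq).dvd_factorial).mp h
      omega
    · exact (hm1 q (hQ q hq) h).2 hq
  obtain ⟨ε', hε', hsize⟩ := size_choice g m₀ W hg0 hm0 hW0 J ε hε
  set E : Finset (ℕ × ℕ) := (Finset.range J).image (fun j => (1 + W * j, 0)) with hE
  have hEc : E.card ≤ J := by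
    have := Finset.card_image_le (s := Finset.range J) (f := fun j => ((1 + W * j, 0) : ℕ × ℕ))
    rwa [Finset.card_range] at this
  obtain ⟨X₁, hX₁⟩ := hb₀ b hbb W hW0 hWQ E hEc ε' hε'
  obtain ⟨S₀, hS₀⟩ := hsize X₁
  refine ⟨S₀, fun S hSS => ?_⟩
  obtain ⟨X, hX, hS1, hS2⟩ := hS₀ S hSS
  obtain ⟨a, ha1, ha2, ha3⟩ := hX₁ X hX
  set t : ℕ → ℕ := fun j => W * a + (1 + W * j) with ht
  have ht0 : ∀ j, 0 < t j := fun j => by simp only [ht]; omega
  have htQ : ∀ j < J, ∀ q ∈ Q, b < q → ¬ q ∣ t j := by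
    intro j hj q hq hbq hd
    have hmem : ((1 + W * j, 0) : ℕ × ℕ) ∈ E :=
      Finset.mem_image.mpr ⟨j, Finset.mem_range.mpr hj, rfl⟩
    apply ha3 q hq hbq _ hmem
    simp only
    have : q ∣ (t j) ^ 2 := dvd_pow hd two_ne_zero
    simpa [ht] using this
  have htW : ∀ j, (t j).Coprime W := by
    intro j
    have : t j = 1 + W * (a + j) := by simp only [ht]; ring
    rw [this]
    simp
  have htb : ∀ j p, p.Prime → p ∣ t j → b < p := by
    intro j p hp hd
    by_contra hle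
    have h1 : p ∣ W := Dvd.dvd.mul_right ((hp.dvd_factorial).mpr (not_lt.mp hle)) m₀
    have h2 : p ∣ 1 := by
      rw [← Nat.Coprime.gcd_eq_one (htW j)]
      exact Nat.dvd_gcd hd h1
    exact hp.one_lt.ne' (Nat.dvd_one.mp h2)
  have htc : ∀ i < J, ∀ j < J, i < j → (t i).Coprime (t j) := by
    intro i hi j hj hij
    apply Nat.Coprime.symm
    rw [Nat.coprime_iff_gcd_eq_one]
    by_contra hne
    obtain ⟨p, hp, hd⟩ := Nat.exists_prime_and_dvd hne
    have h1 : p ∣ t j := hd.trans (Nat.gcd_dvd_left _ _)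
    have h2 : p ∣ t i := hd.trans (Nat.gcd_dvd_right _ _)
    have h3 : p ∣ W * (j - i) := by
      have : t j = t i + W * (j - i) := by
        simp only [ht]
        have : W * j = W * i + W * (j - i) := by
          rw [← Nat.mul_add]
          congr 1
          omega
        omega
      rw [this] at h1
      exact (Nat.dvd_add_right h2).mp h1
    have hbp := htb i p hp h2
    rcases hp.dvd_mul.mp h3 with h4 | h4
    · have h5 : p ∣ 1 := by
        rw [← Nat.Coprime.gcd_eq_one (htW i)]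
        exact Nat.dvd_gcd h2 h4
      exact hp.one_lt.ne' (Nat.dvd_one.mp h5)
    · have := Nat.le_of_dvd (by omega) h4
      omega
  have htc' : ∀ i < J, ∀ j < J, i ≠ j → (t i).Coprime (t j) := by
    intro i hi j hj hij
    rcases lt_or_gt_of_ne hij with h | h
    · exact htc i hi j hj h
    · exact (htc j hj i hi h).symm
  -- pigeonhole
  obtain ⟨v, -, hv⟩ := Finset.exists_lt_card_fiber_of_mul_lt_card_of_maps_to
    (s := Finset.range J) (t := (Finset.univ : Finset G)) (f := fun j => f (t j)) (n := g)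
    (fun _ _ => Finset.mem_univ _) (by rw [Finset.card_range, Finset.card_univ, ← hg, hJ]; omega)
  obtain ⟨s, hs, hsc⟩ := Finset.exists_subset_card_eq hv.le
  have hsJ : ∀ i ∈ s, i < J := fun i hi =>
    Finset.mem_range.mp (Finset.mem_filter.mp (hs hi)).1
  have hsv : ∀ i ∈ s, f (t i) = v := fun i hi => (Finset.mem_filter.mp (hs hi)).2
  set T' := ∏ i ∈ s, t i with hT'
  have hT'0 : 0 < T' := Finset.prod_pos fun i _ => ht0 i
  have hfT' : f T' = 1 := by
    rw [hT', mult_prod f hf s t (fun i _ => ht0 i)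
      (fun i hi j hj hij => htc' i (hsJ i hi) j (hsJ j hj) hij)]
    rw [Finset.prod_congr rfl hsv, Finset.prod_const, hsc, hg]
    exact pow_card_eq_one
  have hmT' : m₀.Coprime T' := by
    apply Nat.Coprime.prod_right
    intro i _
    exact Nat.Coprime.coprime_dvd_left (Dvd.intro_left _ rfl) (htW i).symm
  refine ⟨m₀ * T', Nat.mul_pos hm0 hT'0, ?_, ?_, ?_, ?_, ?_⟩
  · refine hS1.trans ?_
    push_cast
    apply mul_le_mul_of_nonneg_left _ (by positivity)
    rw [hT', ← hsc, ← Finset.prod_const]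
    push_cast
    apply Finset.prod_le_prod
    · intro i _
      positivity
    · intro i _
      have h1 : W * X ≤ t i := by
        have := Nat.mul_le_mul_left W ha1
        simp only [ht]
        omega
      exact_mod_cast h1
  · refine le_trans ?_ hS2
    push_cast
    apply mul_le_mul_of_nonneg_left _ (by positivity)
    rw [hT', ← hsc, ← Finset.prod_const]
    push_cast
    apply Finset.prod_le_prod
    · intro i _
      positivity
    · intro i hi
      have h1 : t i ≤ W * (a + J) := by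
        have h2 := hsJ i hi
        have h3 : W * (i + 1) ≤ W * J := Nat.mul_le_mul_left W h2
        simp only [ht]
        rw [Nat.mul_add]
        have h4 : W * (i + 1) = W * i + W := by ring
        omega
      have h5 : (t i : ℝ) ≤ W * ((a : ℝ) + J) := by exact_mod_cast h1
      refine h5.trans ?_
      apply mul_le_mul_of_nonneg_left _ (by positivity)
      linarith
  · intro p hp hd
    rcases hp.dvd_mul.mp hd with h | h
    · exact hm1 p hp h
    · obtain ⟨i, hi, hdi⟩ := (hp.prime.dvd_finsetProd_iff _).mp h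
      have hbp := htb i p hp hdi
      exact ⟨by omega, fun hpQ => htQ i (hsJ i hi) p hpQ hbp hdi⟩
  · rw [hf m₀ T' hm0 hT'0 hmT', hm2, hfT', one_mul]
  · intro n hn hc
    have h1 : m₀.Coprime n := Nat.Coprime.coprime_dvd_left (Dvd.intro _ rfl) hc
    rw [mul_assoc]
    exact hm3 (T' * n) (Nat.mul_pos hT'0 hn) (Nat.Coprime.mul_right hmT' h1)

end Pool.Agent.Work.MP_0f91f8_co.Mul
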