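import Pool.Agent.Work.MP_0f91f8_co.Mul.Seg
import Pool.Agent.Work.MP_0f91f8_co.Mul.Crt
import Pool.Agent.Work.MP_0f91f8_co.Mul.Size

/-!
The theorem for multiplicative functions with values in a finite abelian group.
-/

namespace Pool.Agent.Work.MP_0f91f8_co.Mul

open Finset

/-- Numerical estimates for the sizes. -/
theorem numer {q p B Y r η Θ T : ℝ} (hq : 0 < q) (hp : 0 ≤ p) (hY : 0 < Y)
    (hη0 : 0 < η) (hη1 : η ≤ 1 / 2) (hr0 : 1 - η / 8 ≤ r)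
    (lo : r * q ≤ B * Y) (up : r * (B * Y) ≤ q) (hpq : p ≤ η / 8 * q) (hΘ : 0 < Θ)
    (hT : 0 ≤ T) (h1 : Θ * Y ≤ T * (q ^ 2 + p ^ 2)) (h2 : T * (q ^ 2 + p ^ 2) ≤ (1 + η / 4) * (Θ * Y)) :
    (1 - η) * Θ ≤ T * (q * B) ∧ T * (q * B) ≤ (1 + η) * Θ ∧
      (1 - η) * (Θ * Y) ≤ T * (q ^ 2 - p ^ 2) ∧ T * (q ^ 2 - p ^ 2) ≤ (1 + η) * (Θ * Y) := by
  have hr : 0 < r := by linarith
  have hp2 : p ^ 2 ≤ η / 8 * q ^ 2 := by
    have h3 : p ^ 2 ≤ (η / 8 * q) ^ 2 := pow_le_pow_left₀ hp hpq 2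
    have h4 : (η / 8 * q) ^ 2 ≤ η / 8 * q ^ 2 := by
      have : (η / 8 * q) ^ 2 = (η / 8) * (η / 8 * q ^ 2) := by ring
      rw [this]
      have h5 : η / 8 ≤ 1 := by linarith
      have h6 : 0 ≤ η / 8 * q ^ 2 := by positivity
      nlinarith
    linarith
  have hq2 : 0 < q ^ 2 := by positivity
  have hΘY : 0 < Θ * Y := mul_pos hΘ hY
  -- comparison of the two products
  have c1 : (1 - η / 2) * (q ^ 2 + p ^ 2) ≤ Y * (q * B) := by
    have h3 : r * q ^ 2 ≤ Y * (q * B) := by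
      have := mul_le_mul_of_nonneg_right lo hq.le
      nlinarith
    have h4 : (1 - η / 2) * (q ^ 2 + p ^ 2) ≤ (1 - η / 2) * (1 + η / 8) * q ^ 2 := by
      have h5 : 0 ≤ 1 - η / 2 := by linarith
      nlinarith
    have h6 : (1 - η / 2) * (1 + η / 8) ≤ 1 - η / 8 := by nlinarith
    have h7 : (1 - η / 2) * (1 + η / 8) * q ^ 2 ≤ r * q ^ 2 :=
      mul_le_mul_of_nonneg_right (by linarith) hq2.le
    linarith
  have c2 : r * (Y * (q * B)) ≤ q ^ 2 + p ^ 2 := by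
    have h3 := mul_le_mul_of_nonneg_right up hq.le
    have h4 : 0 ≤ p ^ 2 := by positivity
    nlinarith
  have hYqB : 0 ≤ Y * (q * B) := by
    have h5 : 0 ≤ 1 - η / 2 := by linarith
    have h6 : 0 ≤ (1 - η / 2) * (q ^ 2 + p ^ 2) := by positivity
    linarith
  refine ⟨?_, ?_, ?_, ?_⟩
  · have h3 : (1 - η) * Θ * Y ≤ T * (q * B) * Y := by
      have h4 := mul_le_mul_of_nonneg_left c1 hT
      have h5 : (1 - η / 2) * (Θ * Y) ≤ (1 - η / 2) * (T * (q ^ 2 + p ^ 2)) :=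
        mul_le_mul_of_nonneg_left h1 (by linarith)
      nlinarith
    exact le_of_mul_le_mul_right h3 hY
  · have h3 : T * (q * B) * Y * r ≤ (1 + η) * Θ * Y * r := by
      have h4 := mul_le_mul_of_nonneg_left c2 hT
      have h5 : (1 + η / 4) ≤ (1 + η) * r := by nlinarith
      have h6 := mul_le_mul_of_nonneg_right h5 hΘY.le
      nlinarith
    exact le_of_mul_le_mul_right (le_of_mul_le_mul_right h3 hr) hY
  · have h4 : (1 - η / 2) * (q ^ 2 + p ^ 2) ≤ q ^ 2 - p ^ 2 := by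
      nlinarith
    have h5 := mul_le_mul_of_nonneg_left h4 hT
    have h6 : (1 - η / 2) * (Θ * Y) ≤ (1 - η / 2) * (T * (q ^ 2 + p ^ 2)) :=
      mul_le_mul_of_nonneg_left h1 (by linarith)
    nlinarith
  · have h4 : q ^ 2 - p ^ 2 ≤ q ^ 2 + p ^ 2 := by nlinarith [sq_nonneg p]
    have h5 := mul_le_mul_of_nonneg_left h4 hT
    nlinarith

theorem crt' : Crt := fun R S P hP A₀ => crt R S P hP A₀

theorem padic_free {p a b : ℕ} (hp : p.Prime) (ha : a ≠ 0) (hb : b ≠ 0) (h : ¬ p ∣ b) :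
    padicValNat p (a * b) = padicValNat p a := by
  have := Fact.mk hp
  rw [padicValNat.mul ha hb, padicValNat.eq_zero_of_not_dvd h, add_zero]

theorem nat_sq_le (q p : ℕ) : q ^ 2 + p ^ 2 ≤ (q + p) ^ 2 := by
  nlinarith [Nat.zero_le (q * p)]

theorem nat_two_mul_le (q p : ℕ) : 2 * q * p ≤ q ^ 2 + p ^ 2 := by
  zify
  nlinarith [sq_nonneg ((q : ℤ) - p)]

theorem nat_C_le (p C : ℕ) : (p + C + p) * C ≤ (p + C) ^ 2 + p ^ 2 := by
  nlinarith [Nat.zero_le (p * C)]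

theorem close_of {η δ t a b : ℝ} (hη0 : 0 < η) (hη1 : η ≤ 1 / 2) (hδ : 4 * η ≤ δ) (ht : 0 ≤ t)
    (a1 : (1 - η) * t ≤ a) (a2 : a ≤ (1 + η) * t) (b1 : (1 - η) * t ≤ b)
    (b2 : b ≤ (1 + η) * t) : |a - b| ≤ δ * a := by
  have h1 : 1 / 2 * t ≤ a := by nlinarith
  have h2 : 2 * η * t ≤ δ * a := by nlinarith
  rw [abs_le]
  constructor <;> linarith

theorem rho_lower {η K : ℝ} {m N0 : ℕ} (hK4 : 4 ≤ K) (hKη : 32 * ((N0 : ℝ) + 1) ≤ η * K)
    (hm : m ≤ N0) : 1 - η / 8 ≤ (1 - 4 / K) ^ m := by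
  have hK0 : 0 < K := by linarith
  have h1 : (-2 : ℝ) ≤ -(4 / K) := by
    have : 4 / K ≤ 1 := by rw [div_le_one hK0]; exact hK4
    linarith
  have h2 := one_add_mul_le_pow h1 m
  have h3 : (m : ℝ) * (4 / K) ≤ η / 8 := by
    rw [mul_div_assoc', div_le_iff₀ hK0]
    have : (m : ℝ) ≤ N0 := by exact_mod_cast hm
    linarith
  have h4 : (1 : ℝ) + -(4 / K) = 1 - 4 / K := by ring
  rw [h4] at h2
  linarith

theorem p_le {η K M a y B q p r : ℝ} (hη1 : η ≤ 1 / 2) (hη0 : 0 < η) (hK0 : 0 < K)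
    (hKη : 32 ≤ η * K) (hM : 1 ≤ M) (ha : 0 ≤ a) (hB : 0 ≤ B) (hy : 0 ≤ y) (hq : 0 ≤ q)
    (h1 : K * (M * a) ≤ y) (h5 : p = a * B) (hr : 1 - η / 8 ≤ r) (h7 : r * (B * y) ≤ q) :
    p ≤ η / 8 * q := by
  have h3 : K * a ≤ y := by
    have h4 : a ≤ M * a := by nlinarith
    exact le_trans (mul_le_mul_of_nonneg_left h4 hK0.le) h1
  have h6 : K * p ≤ B * y := by
    rw [h5]
    have := mul_le_mul_of_nonneg_right h3 hB
    linarith
  have h8 : (1 - η / 8) * (B * y) ≤ q :=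
    le_trans (mul_le_mul_of_nonneg_right hr (mul_nonneg hB hy)) h7
  have h9 : B * y ≤ 2 * q := by
    have : 0 ≤ B * y := mul_nonneg hB hy
    nlinarith
  have h10 : K * p ≤ K * (η / 8 * q) := by
    have h11 : (2 : ℝ) ≤ K * (η / 8) := by linarith
    have h12 := mul_le_mul_of_nonneg_right h11 hq
    linarith
  exact le_of_mul_le_mul_left h10 hK0

theorem grp_id {G : Type} [CommGroup G] (a b g : G) :
    a * ((b * g) * (b * g)) = a * b * (b * g ^ 2) := by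
  rw [mul_mul_mul_comm, ← pow_two g, mul_assoc b b, ← mul_assoc a b]

theorem scale_lo {a b c T u : ℝ} (ha : 0 ≤ a) (h : c * b ≤ T * u) : c * (b * a) ≤ T * (a * u) := by
  have := mul_le_mul_of_nonneg_left h ha
  linarith

theorem scale_up {a b c T u : ℝ} (ha : 0 ≤ a) (h : T * u ≤ c * b) : T * (a * u) ≤ c * (b * a) := by
  have := mul_le_mul_of_nonneg_left h ha
  linarith

theorem group_version {G : Type} [CommGroup G] [Finite G] {f : ℕ → G} (hf : Mult f) {Q : Set ℕ}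
    (hQ : ∀ q ∈ Q, q.Prime) (hS : Siev Q) {A : Set ℕ} (hA : Rich f Q A) {κ : Type} [Finite κ]
    (c : ℕ → κ) (δ : ℝ) (hδ : 0 < δ)
    (hc : ∀ m n : ℕ, 0 < m → 0 < n → m ∈ A → n ∈ A → f m = f n →
      (∀ p ∈ Q, padicValNat p m = padicValNat p n) → |(m : ℝ) - n| ≤ δ * m → c m = c n) :
    ∃ x y z : ℕ, 0 < x ∧ 0 < y ∧ 0 < z ∧ x ^ 2 + y ^ 2 = z ^ 2 ∧ c x = c y ∧ c y = c z := by
  classical
  cases nonempty_fintype G
  cases nonempty_fintype κ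
  set N0 : ℕ := Fintype.card G with hN0
  have hN0pos : 0 < N0 := Fintype.card_pos
  set n : ℕ := Fintype.card (G → κ) + 1 with hn
  obtain ⟨η, hη0, hη1, hηδ⟩ : ∃ η : ℝ, 0 < η ∧ η ≤ 1 / 2 ∧ 4 * η ≤ δ :=
    ⟨min (1 / 2) (δ / 4), lt_min (by norm_num) (by linarith), min_le_left _ _, by
      have := min_le_right (1 / 2) (δ / 4); linarith⟩
  obtain ⟨K, hK⟩ := exists_nat_ge (32 * (N0 + 1) / η + 4)
  have hKη : 32 * ((N0 : ℝ) + 1) ≤ η * K := by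
    have h1 : 32 * ((N0 : ℝ) + 1) / η ≤ K := by linarith
    rw [div_le_iff₀ hη0] at h1
    linarith
  have hK4r : (4 : ℝ) ≤ K := by
    have : 0 ≤ 32 * ((N0 : ℝ) + 1) / η := by positivity
    linarith
  have hK4 : 4 ≤ K := by exact_mod_cast hK4r
  have hK0 : (0 : ℝ) < K := by linarith
  -- chains
  choose l D Y X hch1 hch2 using fun M => chain crt' f hQ hS n M K
  set Bd : ℕ → ℕ := fun M => 2 * ∑ a ∈ range n, X M a with hBd
  have hXle : ∀ M, ∀ a < n, X M a ≤ ∑ a ∈ range n, X M a := fun M a ha =>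
    single_le_sum (f := X M) (fun _ _ => Nat.zero_le _) (mem_range.2 ha)
  have hBdpos : ∀ M, 0 < Bd M := by
    intro M
    have h1 := hXle M 0 (by omega)
    have h2 := (hch1 M 0 (by omega)).1
    simp only [hBd]
    omega
  set Ms : ℕ → ℕ := fun j => Nat.rec 2 (fun _ M => M * (Bd M) ^ 2) j with hMs
  have hMs0 : Ms 0 = 2 := rfl
  have hMss : ∀ j, Ms (j + 1) = Ms j * (Bd (Ms j)) ^ 2 := fun j => rfl
  have hMsle : ∀ j, Ms j ≤ Ms (j + 1) := fun j => by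
    rw [hMss]
    exact Nat.le_mul_of_pos_right _ (pow_pos (hBdpos _) 2)
  have hMsmono : Monotone Ms := monotone_nat_of_le_succ hMsle
  have hMs2 : ∀ j, 2 ≤ Ms j := fun j => by
    have := hMsmono (Nat.zero_le j)
    rwa [hMs0] at this
  set Me : ℕ := Ms N0 with hMe
  -- the multiplier
  obtain ⟨S₀, hS₀⟩ := exists_T f hf hQ hS hA (Me ^ 2) (η / 4) (by linarith)
  set Θ : ℝ := max S₀ 1 * (Me : ℝ) ^ 2 with hΘ
  have hMe2 : 2 ≤ Me := hMs2 N0
  have hMe0 : (0 : ℝ) < Me := by exact_mod_cast (by omega : 0 < Me)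
  have hΘpos : 0 < Θ := by
    have : 0 < max S₀ 1 := lt_of_lt_of_le one_pos (le_max_right _ _)
    positivity
  -- reference colours
  let Ok : ℕ → G → ℕ → Prop := fun x μ N => 0 < N ∧ N ∈ A ∧ f N = f x * μ ∧
    (∀ p ∈ Q, padicValNat p N = padicValNat p x) ∧
    (1 - η) * (Θ * x) ≤ N ∧ (N : ℝ) ≤ (1 + η) * (Θ * x)
  let col : ℕ → G → κ := fun x μ => if h : ∃ N, Ok x μ N then c h.choose else c 0
  have hcol : ∀ x μ N, Ok x μ N → c N = col x μ := by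
    intro x μ N hN
    have hex : ∃ N, Ok x μ N := ⟨N, hN⟩
    have e1 : col x μ = c hex.choose := by simp only [col]; rw [dif_pos hex]
    rw [e1]
    obtain ⟨a1, a2, a3, a4, a5, a6⟩ := hN
    obtain ⟨b1, b2, b3, b4, b5, b6⟩ := hex.choose_spec
    refine hc _ _ a1 b1 a2 b2 (by rw [a3, b3]) (fun p hp => by rw [a4 p hp, b4 p hp]) ?_
    exact close_of hη0 hη1 hηδ (by positivity) a5 a6 b5 b6
  -- pairs
  have hpair : ∀ M, ∃ d y ll w xi xa : ℕ, Pr f Q M K d y ll w ∧ xi = 2 * d * ll * w ∧ xa = d * y ∧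
      d.Coprime y ∧ (∀ q ∈ Q, ¬ q ∣ y) ∧ col xi = col xa ∧ y + ll * w ≤ Bd M ∧ xi ≤ Bd M := by
    intro M
    obtain ⟨i', a', hne, heq⟩ := Fintype.exists_ne_map_eq_of_card_lt
      (fun i : Fin n => col (X M i)) (by rw [Fintype.card_fin]; omega)
    have key : ∀ i a : ℕ, i < a → a < n → col (X M i) = col (X M a) →
        ∃ d y ll w xi xa : ℕ, Pr f Q M K d y ll w ∧ xi = 2 * d * ll * w ∧ xa = d * y ∧
        d.Coprime y ∧ (∀ q ∈ Q, ¬ q ∣ y) ∧ col xi = col xa ∧ y + ll * w ≤ Bd M ∧ xi ≤ Bd M := by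
      intro i a hia han he
      obtain ⟨w, hw, hP⟩ := hch2 M a han i hia
      obtain ⟨g1, g2, g3, g4⟩ := hch1 M a han
      refine ⟨D M a, Y M a, l M, w, X M i, X M a, hP, hw, g2, g3, g4, he, ?_, ?_⟩
      · have h1 := hXle M a han
        have h2 := hXle M i (by omega)
        have h3 : Y M a ≤ X M a := by
          rw [g2]; exact Nat.le_mul_of_pos_left _ hP.D_pos
        have h4 : l M * w ≤ X M i := by
          rw [hw]
          have : 2 * D M a * l M * w = 2 * D M a * (l M * w) := by ring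
          rw [this]
          exact Nat.le_mul_of_pos_left _ (Nat.mul_pos two_pos hP.D_pos)
        simp only [hBd]
        omega
      · have h2 := hXle M i (by omega)
        simp only [hBd]
        omega
    rcases lt_or_gt_of_ne (fun h => hne (Fin.ext h)) with h | h
    · exact key i' a' h a'.2 heq
    · exact key a' i' h i'.2 heq.symm
  choose d y ll w xi xa hPr hxi hxa hcdy hQy hcc hle1 hle2 using hpair
  -- the sequence of blocks
  let ν : ℕ → G := fun j => f (y (Ms j) ^ 2 + (ll (Ms j) * w (Ms j)) ^ 2)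
  let φ : ℕ → G := fun j => f (y (Ms j))
  obtain ⟨s, e, hse, heN, hRR⟩ : ∃ s e : ℕ, s < e ∧ e ≤ N0 ∧
      ∏ j ∈ range s, (ν j * (φ j ^ 2)⁻¹) = ∏ j ∈ range e, (ν j * (φ j ^ 2)⁻¹) := by
    obtain ⟨i, j, hne, heq⟩ := Fintype.exists_ne_map_eq_of_card_lt
      (fun i : Fin (N0 + 1) => ∏ j ∈ range (i : ℕ), (ν j * (φ j ^ 2)⁻¹))
      (by rw [Fintype.card_fin]; omega)
    rcases lt_or_gt_of_ne (fun h => hne (Fin.ext h)) with h | h
    · exact ⟨i, j, h, by omega, heq⟩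
    · exact ⟨j, i, h, by omega, heq.symm⟩
  obtain ⟨m, rfl⟩ : ∃ m, e = s + (m + 1) := ⟨e - s - 1, by omega⟩
  have hprodone : ∏ j ∈ range (m + 1), ν (s + j) = (∏ j ∈ range (m + 1), φ (s + j)) ^ 2 := by
    rw [prod_range_add] at hRR
    have h1 : ∏ j ∈ range (m + 1), (ν (s + j) * (φ (s + j) ^ 2)⁻¹) = 1 :=
      (left_eq_mul.1 hRR)
    rw [prod_mul_distrib, prod_inv_distrib, mul_inv_eq_one, prod_pow] at h1
    exact h1
  -- the segment
  have hseg : ∀ t, s + 1 + t ≤ N0 → ∃ q B p C : ℕ, Seg f Q (Ms (s + 1 + t)) K t (d (Ms s)) (y (Ms s))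
      (ll (Ms s)) (w (Ms s)) q B p C (∏ j ∈ range t, φ (s + 1 + j))
      (∏ j ∈ range (t + 1), ν (s + j)) := by
    intro t
    induction t with
    | zero =>
      intro _
      refine ⟨y (Ms s), 1, ll (Ms s) * w (Ms s), y (Ms s) - ll (Ms s) * w (Ms s), ?_⟩
      rw [prod_range_zero, zero_add, prod_range_one, add_zero, add_zero]
      refine (hPr (Ms s)).seg hf hQ (hMs2 s) ?_ ?_
      · rw [hMss]
        calc (y (Ms s) + ll (Ms s) * w (Ms s)) ^ 2 ≤ (Bd (Ms s)) ^ 2 :=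
              Nat.pow_le_pow_left (hle1 _) 2
          _ ≤ Ms s * (Bd (Ms s)) ^ 2 := Nat.le_mul_of_pos_left _ (by have := hMs2 s; omega)
      · rw [hMss, ← hxi]
        calc xi (Ms s) ≤ Bd (Ms s) := hle2 _
          _ ≤ (Bd (Ms s)) ^ 2 := Nat.le_self_pow two_ne_zero _
          _ ≤ Ms s * (Bd (Ms s)) ^ 2 := Nat.le_mul_of_pos_left _ (by have := hMs2 s; omega)
    | succ t ih =>
      intro ht
      obtain ⟨q, B, p, C, hs'⟩ := ih (by omega)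
      obtain ⟨q', B', p', C', hs''⟩ := hs'.step hf hQ (hMs2 _) hK4 (hPr (Ms (s + 1 + t)))
        (M' := Ms (s + 1 + (t + 1))) (by
          have : s + 1 + (t + 1) = (s + 1 + t) + 1 := by ring
          rw [this, hMss]
          exact Nat.mul_le_mul_left _ (Nat.pow_le_pow_left (hle1 _) 2))
      refine ⟨q', B', p', C', ?_⟩
      rw [prod_range_succ, prod_range_succ (fun j => ν (s + j)) (t + 1)]
      have e1 : s + (t + 1) = s + 1 + t := by ring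
      rw [e1]
      exact hs''
  obtain ⟨q, B, p, C, hsg⟩ := hseg m (by omega)
  have hmN : m ≤ N0 := by omega
  have hPs := hPr (Ms s)
  set g : G := ∏ j ∈ range m, φ (s + 1 + j) with hg
  set d₀ : ℕ := d (Ms s) with hd₀
  set y₀ : ℕ := y (Ms s) with hy₀
  set l₀ : ℕ := ll (Ms s) with hl₀
  set w₀ : ℕ := w (Ms s) with hw₀
  have hfV : f (q ^ 2 + p ^ 2) = (f y₀ * g) ^ 2 := by
    rw [hsg.fV, hprodone, prod_range_succ', mul_comm]
    congr 2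
    rw [hg]
    refine prod_congr rfl fun j _ => ?_
    have : s + (j + 1) = s + 1 + j := by ring
    rw [this]
  have hd0 : 0 < d₀ := hPs.D_pos
  have hy0 : 0 < y₀ := hPs.Y_pos
  have hl0 : 0 < l₀ := hPs.l_pos
  have hw0 : 0 < w₀ := hPs.w_pos
  have hp0 := hsg.p_pos
  have hC0 := hsg.C_pos
  have hB0 := hsg.B_pos
  have hqe := hsg.q_eq
  have hq0 : 0 < q := by omega
  have hMle : Ms (s + 1 + m) ≤ Me := hMsmono (by omega)
  obtain ⟨X1, hX1⟩ : ∃ X1 : ℕ, X1 = 2 * d₀ * l₀ * w₀ := ⟨_, rfl⟩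
  have hX1pos : 0 < X1 := by rw [hX1]; positivity
  have hXq : X1.Coprime q := by rw [hX1]; exact hsg.Xq
  have hXB : X1.Coprime B := by rw [hX1]; exact hsg.XB
  -- the triple before scaling
  obtain ⟨x0, hx0⟩ : ∃ x0, x0 = X1 * (q * B) := ⟨_, rfl⟩
  obtain ⟨y0, hy0'⟩ : ∃ y0, y0 = d₀ * ((q + p) * C) := ⟨_, rfl⟩
  obtain ⟨z0, hz0⟩ : ∃ z0, z0 = d₀ * (q ^ 2 + p ^ 2) := ⟨_, rfl⟩
  have hx0' : x0 = d₀ * (2 * q * p) := by rw [hx0, hX1, hsg.p_eq]; ring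
  have hx0pos : 0 < x0 := by rw [hx0]; positivity
  have hy0pos : 0 < y0 := by rw [hy0']; positivity
  have hz0pos : 0 < z0 := by rw [hz0]; positivity
  have hpyth : x0 ^ 2 + y0 ^ 2 = z0 ^ 2 := by
    rw [hx0', hy0', hz0, hqe]; ring
  have hd₀M : d₀ ≤ Me := by
    have h1 := hsg.X_le_M
    have h3 : d₀ ≤ 2 * d₀ * l₀ * w₀ := by
      calc d₀ ≤ d₀ * (2 * (l₀ * w₀)) := Nat.le_mul_of_pos_right _ (by positivity)
        _ = 2 * d₀ * l₀ * w₀ := by ring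
    omega
  have hVM : q ^ 2 + p ^ 2 ≤ Me := by
    exact le_trans (nat_sq_le q p) (le_trans hsg.le_M hMle)
  have hz0M : z0 ≤ Me ^ 2 := by
    rw [hz0, pow_two Me]; exact Nat.mul_le_mul hd₀M hVM
  have hx0z0 : x0 ≤ z0 := by
    rw [hx0', hz0]
    exact Nat.mul_le_mul_left _ (nat_two_mul_le q p)
  have hy0z0 : y0 ≤ z0 := by
    rw [hy0', hz0]
    refine Nat.mul_le_mul_left _ ?_
    rw [hqe]
    exact nat_C_le p C
  -- the multiplier
  have hz0r : (0 : ℝ) < z0 := by exact_mod_cast hz0pos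
  have hd0r : (0 : ℝ) < d₀ := by exact_mod_cast hd0
  have hy0r : (0 : ℝ) < y₀ := by exact_mod_cast hy0
  have hSS : S₀ ≤ Θ * (d₀ * y₀) / z0 := by
    rw [le_div_iff₀ hz0r]
    have h1 : (1 : ℝ) ≤ d₀ * y₀ := by
      have : 1 ≤ d₀ * y₀ := Nat.mul_pos hd0 hy0
      exact_mod_cast this
    have h2 : (z0 : ℝ) ≤ (Me : ℝ) ^ 2 := by exact_mod_cast hz0M
    have h3 : S₀ * z0 ≤ max S₀ 1 * (Me : ℝ) ^ 2 := by
      have h4 : 0 < max S₀ 1 := lt_of_lt_of_le one_pos (le_max_right _ _)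
      exact mul_le_mul (le_max_left _ _) h2 hz0r.le h4.le
    calc S₀ * z0 ≤ Θ * 1 := by rw [mul_one]; exact h3
      _ ≤ Θ * (d₀ * y₀) := mul_le_mul_of_nonneg_left h1 hΘpos.le
  obtain ⟨T, hT0, hT1, hT2, hTp, hfT, hTA⟩ := hS₀ _ hSS
  have hTcop : ∀ t, 0 < t → t ≤ z0 → T.Coprime t := by
    intro t ht htz
    refine Nat.coprime_of_dvd ?_
    intro r hr h1 h2
    have h3 := (hTp r hr h1).1
    have h4 := Nat.le_of_dvd ht h2
    omega
  have hTx := hTcop x0 hx0pos hx0z0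
  have hTy := hTcop y0 hy0pos hy0z0
  have hTz := hTcop z0 hz0pos le_rfl
  have hTQ : ∀ r ∈ Q, ¬ r ∣ T := fun r hr hd => (hTp r (hQ r hr) hd).2 hr
  -- values of `f`
  have hfx : f x0 = f X1 * (f y₀ * g ^ 2) := by
    rw [hx0, hf X1 (q * B) hX1pos (by positivity) (Nat.Coprime.mul_right hXq hXB),
      hf q B hq0 hB0 hsg.qB, hsg.fq, hsg.fB]
    congr 1
    rw [pow_two, mul_assoc]
  have hfd : f (d₀ * y₀) = f d₀ * f y₀ := hf _ _ hd0 hy0 (hcdy _)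
  have hfy : f y0 = f (d₀ * y₀) * (f y₀ * g ^ 2) := by
    rw [hy0', hf d₀ _ hd0 (by positivity) (Nat.Coprime.mul_right hsg.DS hsg.DC),
      hf _ C (by omega) hC0 hsg.SC, hsg.fS, hsg.fC, hfd]
    exact grp_id _ _ _
  have hfz : f z0 = f (d₀ * y₀) * (f y₀ * g ^ 2) := by
    rw [hz0, hf d₀ _ hd0 (by positivity) hsg.DV, hfV, hfd, pow_two (f y₀ * g)]
    exact grp_id _ _ _
  -- sizes
  have hq0r : (0 : ℝ) < q := by exact_mod_cast hq0
  have hrho0 : 1 - η / 8 ≤ (1 - 4 / (K : ℝ)) ^ m := rho_lower hK4r hKη hmN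
  have hKη' : 32 ≤ η * (K : ℝ) := by
    have : (0 : ℝ) ≤ N0 := Nat.cast_nonneg _
    linarith
  have hpq : (p : ℝ) ≤ η / 8 * q := by
    refine p_le (M := (Ms s : ℝ)) (a := (l₀ : ℝ) * w₀) (y := (y₀ : ℝ)) (B := (B : ℝ)) hη1 hη0 hK0
      hKη' ?_ (by positivity) (by positivity) (by positivity) hq0r.le ?_ ?_ hrho0 hsg.up
    · have := hMs2 s
      exact_mod_cast (by omega : 1 ≤ Ms s)
    · have h1 : (K : ℝ) * ((Ms s : ℝ) * l₀ * w₀) ≤ y₀ := by exact_mod_cast hPs.size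
      rw [← mul_assoc (Ms s : ℝ)]
      exact h1
    · have := hsg.p_eq
      exact_mod_cast this
  have hz0c : (z0 : ℝ) = d₀ * ((q : ℝ) ^ 2 + (p : ℝ) ^ 2) := by rw [hz0]; push_cast; ring
  have hT0r : (0 : ℝ) ≤ T := Nat.cast_nonneg T
  have hTl : Θ * y₀ ≤ T * ((q : ℝ) ^ 2 + (p : ℝ) ^ 2) := by
    rw [div_le_iff₀ hz0r, hz0c] at hT1
    have h1 : d₀ * (Θ * y₀) ≤ d₀ * (T * ((q : ℝ) ^ 2 + (p : ℝ) ^ 2)) := by linarith
    exact le_of_mul_le_mul_left h1 hd0r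
  have hTu : T * ((q : ℝ) ^ 2 + (p : ℝ) ^ 2) ≤ (1 + η / 4) * (Θ * y₀) := by
    rw [mul_div_assoc', le_div_iff₀ hz0r, hz0c] at hT2
    have h1 : d₀ * (T * ((q : ℝ) ^ 2 + (p : ℝ) ^ 2)) ≤ d₀ * ((1 + η / 4) * (Θ * y₀)) := by linarith
    exact le_of_mul_le_mul_left h1 hd0r
  obtain ⟨n1, n2, n3, n4⟩ := numer hq0r (Nat.cast_nonneg p) hy0r hη0 hη1 hrho0 hsg.lo hsg.up hpq
    hΘpos hT0r hTl hTu
  have hX1r : (0 : ℝ) < X1 := by exact_mod_cast hX1pos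
  have hx0c : ((T * x0 : ℕ) : ℝ) = T * (X1 * ((q : ℝ) * B)) := by
    rw [hx0]
    push_cast
    ring
  have okx : Ok X1 (f y₀ * g ^ 2) (T * x0) := by
    refine ⟨by positivity, hTA x0 hx0pos hTx, ?_, ?_, ?_, ?_⟩
    · rw [hf T x0 hT0 hx0pos hTx, hfT, one_mul, hfx]
    · intro r hr
      rw [mul_comm, padic_free (hQ r hr) hx0pos.ne' hT0.ne' (hTQ r hr), hx0,
        padic_free (hQ r hr) hX1pos.ne' (by positivity) (qfree_mul hQ hsg.Qfr hsg.QB r hr)]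
    · rw [hx0c]
      exact scale_lo hX1r.le n1
    · rw [hx0c]
      exact scale_up hX1r.le n2
  have hdy0 : 0 < d₀ * y₀ := Nat.mul_pos hd0 hy0
  have hy0c : ((T * y0 : ℕ) : ℝ) = T * (d₀ * ((q : ℝ) ^ 2 - (p : ℝ) ^ 2)) := by
    have h1 : (C : ℝ) = q - p := by
      have h2 : (q : ℝ) = p + C := by exact_mod_cast hqe
      rw [h2]; ring
    rw [hy0']
    push_cast
    rw [h1]; ring
  have hz0c' : ((T * z0 : ℕ) : ℝ) = T * (d₀ * ((q : ℝ) ^ 2 + (p : ℝ) ^ 2)) := by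
    rw [hz0]
    push_cast
    ring
  have hTl' : (1 - η) * (Θ * y₀) ≤ T * ((q : ℝ) ^ 2 + (p : ℝ) ^ 2) := by
    have h0 : 0 ≤ η * (Θ * (y₀ : ℝ)) := by positivity
    linarith
  have hTu' : T * ((q : ℝ) ^ 2 + (p : ℝ) ^ 2) ≤ (1 + η) * (Θ * y₀) := by
    have h0 : 0 ≤ η * (Θ * (y₀ : ℝ)) := by positivity
    linarith
  have oky : Ok (d₀ * y₀) (f y₀ * g ^ 2) (T * y0) := by
    refine ⟨by positivity, hTA y0 hy0pos hTy, ?_, ?_, ?_, ?_⟩
    · rw [hf T y0 hT0 hy0pos hTy, hfT, one_mul, hfy]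
    · intro r hr
      rw [mul_comm, padic_free (hQ r hr) hy0pos.ne' hT0.ne' (hTQ r hr), hy0',
        padic_free (hQ r hr) hd0.ne' (by positivity) (qfree_mul hQ hsg.QS hsg.QC r hr),
        padic_free (hQ r hr) hd0.ne' hy0.ne' (hQy _ r hr)]
    · rw [hy0c, Nat.cast_mul d₀ y₀, mul_comm (d₀ : ℝ) (y₀ : ℝ), ← mul_assoc Θ]
      exact scale_lo hd0r.le n3
    · rw [hy0c, Nat.cast_mul d₀ y₀, mul_comm (d₀ : ℝ) (y₀ : ℝ), ← mul_assoc Θ]
      exact scale_up hd0r.le n4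
  have okz : Ok (d₀ * y₀) (f y₀ * g ^ 2) (T * z0) := by
    refine ⟨by positivity, hTA z0 hz0pos hTz, ?_, ?_, ?_, ?_⟩
    · rw [hf T z0 hT0 hz0pos hTz, hfT, one_mul, hfz]
    · intro r hr
      rw [mul_comm, padic_free (hQ r hr) hz0pos.ne' hT0.ne' (hTQ r hr), hz0,
        padic_free (hQ r hr) hd0.ne' (by positivity) (hsg.QV r hr),
        padic_free (hQ r hr) hd0.ne' hy0.ne' (hQy _ r hr)]
    · rw [hz0c', Nat.cast_mul d₀ y₀, mul_comm (d₀ : ℝ) (y₀ : ℝ), ← mul_assoc Θ]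
      exact scale_lo hd0r.le hTl'
    · rw [hz0c', Nat.cast_mul d₀ y₀, mul_comm (d₀ : ℝ) (y₀ : ℝ), ← mul_assoc Θ]
      exact scale_up hd0r.le hTu'
  have hcc' : col X1 = col (d₀ * y₀) := by
    have := hcc (Ms s)
    rw [hxi, hxa] at this
    rw [hX1]
    exact this
  refine ⟨T * x0, T * y0, T * z0, by positivity, by positivity, by positivity, ?_, ?_, ?_⟩
  · rw [mul_pow, mul_pow, mul_pow, ← hpyth]; ring
  · rw [hcol _ _ _ okx, hcol _ _ _ oky, hcc']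
  · rw [hcol _ _ _ oky, hcol _ _ _ okz]

end Pool.Agent.Work.MP_0f91f8_co.Mul
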