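import Pool.Agent.Work.MP_0f91f8_co.Mul.Defs

/-!
# Reduction of multiplicative functions with values in a finite monoid to group values
-/

namespace Pool.Agent.Work.MP_0f91f8_co.Mul

open Finset

/-- In a finite monoid every element has an idempotent power. -/
theorem exists_idem_pow {S : Type} [CommMonoid S] [Finite S] (s : S) :
    ∃ N : ℕ, 0 < N ∧ s ^ N * s ^ N = s ^ N := by
  obtain ⟨i, j, hij, h⟩ := Finite.exists_ne_map_eq_of_infinite (fun n : ℕ => s ^ n)
  wlog hlt : i < j generalizing i j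
  · exact this j i hij.symm h.symm (by omega)
  obtain ⟨d, rfl⟩ : ∃ d, j = i + d := ⟨j - i, by omega⟩
  have hd : 0 < d := by omega
  have key : ∀ m k : ℕ, s ^ (i + k + m * d) = s ^ (i + k) := by
    intro m
    induction m with
    | zero => intro k; simp
    | succ m ih =>
      intro k
      have e1 : i + k + (m + 1) * d = (i + d) + (k + m * d) := by ring
      rw [e1, pow_add, ← h, ← pow_add]
      have e2 : i + (k + m * d) = i + k + m * d := by ring
      rw [e2, ih]
  refine ⟨(i + 1) * d, by positivity, ?_⟩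
  rw [← pow_add]
  have h1 : i ≤ (i + 1) * d := by nlinarith
  obtain ⟨k, hk⟩ := Nat.exists_eq_add_of_le h1
  have := key (i + 1) k
  rw [← hk] at this
  exact this

/-- The part of `f` coming from the primes with the property `P`. -/
noncomputable def Fp {S : Type} [CommMonoid S] (f : ℕ → S) (P : Set ℕ) (n : ℕ) : S := by
  classical
  exact f 1 * ∏ p ∈ n.primeFactors with p ∈ P, f (p ^ n.factorization p)

variable {S : Type} [CommMonoid S]

theorem f_one_idem {f : ℕ → S} (hf : Mult f) : f 1 * f 1 = f 1 := by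
  have := hf 1 1 one_pos one_pos (by simp)
  simpa using this.symm

theorem Fp_mul {f : ℕ → S} (hf : Mult f) (P : Set ℕ) {m n : ℕ} (hm : 0 < m) (hn : 0 < n)
    (h : m.Coprime n) : Fp f P (m * n) = Fp f P m * Fp f P n := by
  classical
  unfold Fp
  rw [Nat.Coprime.primeFactors_mul h, Finset.filter_union, Finset.prod_union]
  · have e1 : ∏ p ∈ m.primeFactors with p ∈ P, f (p ^ (m * n).factorization p) =
        ∏ p ∈ m.primeFactors with p ∈ P, f (p ^ m.factorization p) := by
      refine Finset.prod_congr rfl fun p hp => ?_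
      rw [Nat.factorization_eq_of_coprime_left h (Nat.mem_primeFactors.mp
        (Finset.mem_filter.mp hp).1 |> fun q => Nat.mem_primeFactorsList hm.ne' |>.mpr ⟨q.1, q.2.1⟩)]
    have e2 : ∏ p ∈ n.primeFactors with p ∈ P, f (p ^ (m * n).factorization p) =
        ∏ p ∈ n.primeFactors with p ∈ P, f (p ^ n.factorization p) := by
      refine Finset.prod_congr rfl fun p hp => ?_
      rw [Nat.factorization_eq_of_coprime_right h (Nat.mem_primeFactors.mp
        (Finset.mem_filter.mp hp).1 |> fun q => Nat.mem_primeFactorsList hn.ne' |>.mpr ⟨q.1, q.2.1⟩)]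
    rw [e1, e2]
    conv_lhs => rw [← f_one_idem hf]
    exact mul_mul_mul_comm _ _ _ _
  · refine Finset.disjoint_filter_filter ?_
    exact Nat.Coprime.disjoint_primeFactors h

theorem Fp_prime_pow {f : ℕ → S} (P : Set ℕ) {p j : ℕ} (hp : p.Prime) (hj : 0 < j)
    (hP : p ∈ P) : Fp f P (p ^ j) = f 1 * f (p ^ j) := by
  classical
  unfold Fp
  rw [Nat.primeFactors_prime_pow hj.ne' hp, Finset.filter_singleton, if_pos hP,
    Finset.prod_singleton, Nat.Prime.factorization_pow hp]
  simp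

theorem Fp_one {f : ℕ → S} (P : Set ℕ) : Fp f P 1 = f 1 := by
  classical
  unfold Fp
  simp

theorem f_eq_prod {f : ℕ → S} (hf : Mult f) {n : ℕ} (hn : 0 < n) :
    f n = f 1 * ∏ p ∈ n.primeFactors, f (p ^ n.factorization p) := by
  have key : ∀ n : ℕ, 0 < n → f n = Fp f Set.univ n := by
    intro n
    induction n using Nat.recOnPosPrimePosCoprime with
    | prime_pow p n hp hn =>
      intro _
      rw [Fp_prime_pow _ hp hn (Set.mem_univ _), ← hf 1 _ one_pos (by positivity [hp.pos])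
        (by simp)]
      simp
    | zero => intro h; exact absurd h (lt_irrefl _)
    | one => intro _; rw [Fp_one]
    | coprime a b ha hb hab iha ihb =>
      intro _
      rw [hf a b (by omega) (by omega) hab, Fp_mul hf _ (by omega) (by omega) hab,
        iha (by omega), ihb (by omega)]
  rw [key n hn]
  unfold Fp
  simp

theorem f_eq_split {f : ℕ → S} (hf : Mult f) (P : Set ℕ) {n : ℕ} (hn : 0 < n) :
    f n = Fp f P n * Fp f Pᶜ n := by
  classical
  rw [f_eq_prod hf hn]
  unfold Fp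
  rw [mul_mul_mul_comm, f_one_idem hf]
  congr 1
  rw [← Finset.prod_filter_mul_prod_filter_not n.primeFactors (fun p => p ∈ P)]
  simp only [Set.mem_compl_iff]

/-- Adding finitely many elements to a sparse set keeps it sparse. -/
theorem sparse_union {Q E : Set ℕ} (hs : Sparse Q) (hE : E.Finite) : Sparse (Q ∪ E) := by
  intro k
  obtain ⟨x₀, hx₀⟩ := hs (2 * k)
  refine ⟨max x₀ (2 * k * E.ncard), fun x hx => ?_⟩
  have h1 := hx₀ x (le_trans (le_max_left _ _) hx)
  have h2 : 2 * k * E.ncard ≤ x := le_trans (le_max_right _ _) hx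
  have h3 : {q ∈ Q ∪ E | q ≤ x ^ 2}.ncard ≤ {q ∈ Q | q ≤ x ^ 2}.ncard + E.ncard := by
    have hsub : {q ∈ Q ∪ E | q ≤ x ^ 2} ⊆ {q ∈ Q | q ≤ x ^ 2} ∪ E := by
      rintro q ⟨hq, hx⟩
      rcases hq with hq | hq
      · exact Or.inl ⟨hq, hx⟩
      · exact Or.inr hq
    have hfin : ({q ∈ Q | q ≤ x ^ 2} ∪ E).Finite := by
      refine Set.Finite.union ?_ hE
      exact (Set.finite_Iic (x ^ 2)).subset fun q hq => hq.2
    exact le_trans (Set.ncard_le_ncard hsub hfin) (Set.ncard_union_le _ _)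
  have h4 : 2 * (k * {q ∈ Q ∪ E | q ≤ x ^ 2}.ncard) ≤ 2 * x := by
    calc 2 * (k * {q ∈ Q ∪ E | q ≤ x ^ 2}.ncard)
        ≤ 2 * (k * ({q ∈ Q | q ≤ x ^ 2}.ncard + E.ncard)) := by gcongr
      _ = 2 * k * {q ∈ Q | q ≤ x ^ 2}.ncard + 2 * k * E.ncard := by ring
      _ ≤ x + x := add_le_add h1 h2
      _ = 2 * x := by ring
  omega

/-- The congruence `e * a = e * b`. -/
def eCon (e : S) : Con S where
  r a b := e * a = e * b
  iseqv := ⟨fun _ => rfl, fun h => h.symm, fun h h' => h.trans h'⟩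
  mul' := by
    intro w x y z h h'
    calc e * (w * y) = e * w * y := (mul_assoc _ _ _).symm
      _ = e * x * y := by rw [h]
      _ = x * (e * y) := by rw [mul_comm e x, mul_assoc]
      _ = x * (e * z) := by rw [h']
      _ = e * (x * z) := by rw [← mul_assoc, mul_comm x e, mul_assoc]

theorem eCon_eq (e a b : S) : ((a : (eCon e).Quotient) = (b : (eCon e).Quotient)) ↔
    e * a = e * b := by
  rw [Con.eq]
  rfl

/-- Numbers with prescribed product of values in large primes outside a set. -/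
theorem exists_prod {f : ℕ → S} (hf : Mult f) {Q : Set ℕ} {T : Set S}
    (hT : ∀ s ∈ T, {p : ℕ | p.Prime ∧ p ∉ Q ∧ ∃ j, 0 < j ∧ f (p ^ j) = s}.Infinite) (B : ℕ)
    (L : List S) (hL : ∀ s ∈ L, s ∈ T) :
    ∃ m₀ : ℕ, 0 < m₀ ∧ (∀ p, p.Prime → p ∣ m₀ → B < p ∧ p ∉ Q) ∧
      Fp f Qᶜ m₀ = f 1 * L.prod := by
  induction L with
  | nil =>
    refine ⟨1, one_pos, ?_, ?_⟩
    · intro p hp h
      exact absurd (Nat.dvd_one.mp h) hp.one_lt.ne'
    · rw [Fp_one]; simp
  | cons s L ih =>
    obtain ⟨m, hm, hmp, hF⟩ := ih fun s hs => hL s (List.mem_cons_of_mem _ hs)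
    obtain ⟨p, ⟨hp, hpQ, j, hj, hfj⟩, hpB⟩ :=
      (hT s (hL s List.mem_cons_self)).exists_gt (max B m)
    have hpB' : B < p := lt_of_le_of_lt (le_max_left _ _) hpB
    have hpm : m < p := lt_of_le_of_lt (le_max_right _ _) hpB
    have hcop : (p ^ j).Coprime m := by
      refine Nat.Coprime.pow_left _ ((Nat.Prime.coprime_iff_not_dvd hp).mpr fun h => ?_)
      exact absurd (Nat.le_of_dvd hm h) (by omega)
    have hpj : 0 < p ^ j := pow_pos hp.pos j
    refine ⟨p ^ j * m, Nat.mul_pos hpj hm, ?_, ?_⟩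
    · intro q hq hqd
      rcases (Nat.Prime.dvd_mul hq).mp hqd with h | h
      · have : q = p := (Nat.prime_dvd_prime_iff_eq hq hp).mp (hq.dvd_of_dvd_pow h)
        subst this
        exact ⟨hpB', hpQ⟩
      · exact hmp q hq h
    · rw [Fp_mul hf _ hpj hm hcop, Fp_prime_pow _ hp hj hpQ, hF, hfj, List.prod_cons,
        mul_mul_mul_comm, f_one_idem hf]

theorem Fp_unit {M : Type} [CommMonoid M] (φ : S →* M) (f : ℕ → S) (P : Set ℕ)
    (h1 : IsUnit (φ (f 1)))
    (h : ∀ p j, p.Prime → p ∈ P → 0 < j → IsUnit (φ (f (p ^ j)))) (n : ℕ) :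
    IsUnit (φ (Fp f P n)) := by
  classical
  unfold Fp
  rw [map_mul, map_prod]
  refine h1.mul ?_
  refine Finset.prod_induction _ IsUnit (fun a b ha hb => ha.mul hb) isUnit_one ?_
  intro p hp
  rw [Finset.mem_filter, Nat.mem_primeFactors] at hp
  refine h p _ hp.1.1 hp.2 ?_
  exact hp.1.1.factorization_pos_of_dvd hp.1.2.2 hp.1.2.1

theorem exists_list (T : Finset S) (N : S → ℕ) :
    ∃ L : List S, (∀ s ∈ L, s ∈ T) ∧ L.prod = ∏ s ∈ T, s ^ N s := by
  classical
  induction T using Finset.induction_on with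
  | empty => exact ⟨[], by simp, by simp⟩
  | insert a T ha ih =>
    obtain ⟨L, hL, hp⟩ := ih
    refine ⟨List.replicate (N a) a ++ L, ?_, ?_⟩
    · intro s hs
      rw [List.mem_append, List.mem_replicate] at hs
      rcases hs with hs | hs
      · rw [hs.2]; exact Finset.mem_insert_self _ _
      · exact Finset.mem_insert_of_mem (hL s hs)
    · rw [List.prod_append, List.prod_replicate, hp, Finset.prod_insert ha]

theorem Fp_compl_congr {f : ℕ → S} {Q : Set ℕ} {m n : ℕ} (hm : 0 < m) (hn : 0 < n)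
    (hQ : ∀ q ∈ Q, q.Prime) (h : ∀ p ∈ Q, padicValNat p m = padicValNat p n) :
    Fp f Q m = Fp f Q n := by
  classical
  unfold Fp
  congr 1
  have hfac : ∀ p ∈ Q, m.factorization p = n.factorization p := by
    intro p hp
    rw [Nat.factorization_def _ (hQ p hp), Nat.factorization_def _ (hQ p hp), h p hp]
  refine Finset.prod_congr ?_ ?_
  · ext p
    simp only [Finset.mem_filter, ← Nat.support_factorization, Finsupp.mem_support_iff]
    constructor
    · rintro ⟨h1, h2⟩; exact ⟨by rw [← hfac p h2]; exact h1, h2⟩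
    · rintro ⟨h1, h2⟩; exact ⟨by rw [hfac p h2]; exact h1, h2⟩
  · intro p hp
    rw [hfac p (Finset.mem_filter.mp hp).2]

theorem monoid_lemma {S : Type} [CommMonoid S] [Finite S] (f : ℕ → S) (hf : Mult f)
    {Q : Set ℕ} (hQ : ∀ q ∈ Q, q.Prime) (hs : Sparse Q) :
    ∃ Q' : Set ℕ, Q ⊆ Q' ∧ (∀ q ∈ Q', q.Prime) ∧ Sparse Q' ∧
    ∃ (G : Type) (_ : CommGroup G) (_ : Finite G) (g : ℕ → G) (A : Set ℕ),
      Mult g ∧ Rich g Q' A ∧
      ∀ m n : ℕ, 0 < m → 0 < n → m ∈ A → n ∈ A → g m = g n →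
        (∀ p ∈ Q', padicValNat p m = padicValNat p n) → f m = f n := by
  classical
  have : Fintype S := Fintype.ofFinite S
  -- the sets of primes with a given value
  set P : S → Set ℕ := fun s => {p : ℕ | p.Prime ∧ p ∉ Q ∧ ∃ j, 0 < j ∧ f (p ^ j) = s} with hP
  set Exc : Set ℕ := ⋃ s ∈ {s : S | (P s).Finite}, P s with hExc
  have hExcfin : Exc.Finite := Set.Finite.biUnion (Set.toFinite _) fun s hs => hs
  set Q' : Set ℕ := Q ∪ Exc with hQ'
  set T : Set S := {s : S | ¬ (P s).Finite} with hT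
  have hTinf : ∀ s ∈ T,
      {p : ℕ | p.Prime ∧ p ∉ Q' ∧ ∃ j, 0 < j ∧ f (p ^ j) = s}.Infinite := by
    intro s hs
    have h1 : (P s \ Exc).Infinite := Set.Infinite.sdiff hs hExcfin
    refine h1.mono ?_
    rintro p ⟨⟨hp, hpQ, hj⟩, hpE⟩
    exact ⟨hp, fun h => h.elim hpQ hpE, hj⟩
  have hmemT : ∀ p j, p.Prime → p ∉ Q' → 0 < j → f (p ^ j) ∈ T := by
    intro p j hp hpQ hj hfin
    refine hpQ (Or.inr ?_)
    exact Set.mem_biUnion (show f (p ^ j) ∈ {s : S | (P s).Finite} from hfin)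
      ⟨hp, fun h => hpQ (Or.inl h), j, hj, rfl⟩
  choose N hN0 hN using fun s : S => exists_idem_pow s
  -- the idempotent
  obtain ⟨L, hLT', hLprod⟩ := exists_list (Finset.univ.filter (fun s => s ∈ T)) N
  have hLT : ∀ s ∈ L, s ∈ T := fun s hs => (Finset.mem_filter.mp (hLT' s hs)).2
  set e : S := f 1 * L.prod with he
  have hidem : e * e = e := by
    rw [he, mul_mul_mul_comm, f_one_idem hf, hLprod, ← Finset.prod_mul_distrib]
    congr 1
    exact Finset.prod_congr rfl fun s _ => hN s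
  have he1 : e * f 1 = e := by
    rw [he, mul_comm, ← mul_assoc, f_one_idem hf]
  have heT : ∀ s ∈ T, e * s ^ N s = e := by
    intro s hs
    have hmem : s ∈ Finset.univ.filter (fun s => s ∈ T) := by simp [hs]
    rw [he, hLprod, ← Finset.mul_prod_erase _ _ hmem]
    have := hN s
    calc f 1 * (s ^ N s * ∏ x ∈ (Finset.univ.filter (fun s => s ∈ T)).erase s, x ^ N x) * s ^ N s
        = f 1 * ((s ^ N s * s ^ N s) *
            ∏ x ∈ (Finset.univ.filter (fun s => s ∈ T)).erase s, x ^ N x) := by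
          simp only [mul_assoc, mul_comm, mul_left_comm]
      _ = _ := by rw [this]
  -- units in the quotient
  have hunitT : ∀ s ∈ T, IsUnit (s : (eCon e).Quotient) := by
    intro s hs
    refine IsUnit.of_mul_eq_one ((s ^ (N s - 1) : S) : (eCon e).Quotient) ?_
    rw [← Con.coe_mul, ← Con.coe_one, eCon_eq, ← pow_succ', Nat.sub_add_cancel (hN0 s), heT s hs,
      mul_one]
  have hunit1 : ((f 1 : S) : (eCon e).Quotient) = 1 := by
    rw [← Con.coe_one, eCon_eq, he1, mul_one]
  have hunit : ∀ n, IsUnit ((Fp f Q'ᶜ n : S) : (eCon e).Quotient) := by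
    intro n
    refine Fp_unit (Con.mk' (eCon e)) f Q'ᶜ ?_ ?_ n
    · change IsUnit ((f 1 : S) : (eCon e).Quotient)
      rw [hunit1]; exact isUnit_one
    · intro p j hp hpQ hj
      exact hunitT _ (hmemT p j hp hpQ hj)
  have hg : ∀ m n, (hunit m).unit = (hunit n).unit ↔ e * Fp f Q'ᶜ m = e * Fp f Q'ᶜ n := by
    intro m n
    rw [Units.ext_iff, IsUnit.unit_spec, IsUnit.unit_spec, eCon_eq]
  have hfq : Finite (eCon e).Quotient := Finite.of_surjective _ (Con.mk'_surjective (c := eCon e))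
  refine ⟨Q', Set.subset_union_left, ?_, sparse_union hs hExcfin, ((eCon e).Quotient)ˣ,
    inferInstance, inferInstance, fun n => (hunit n).unit,
    {n | e * Fp f Q'ᶜ n = Fp f Q'ᶜ n}, ?_, ?_, ?_⟩
  · intro q hq
    rcases hq with hq | hq
    · exact hQ q hq
    · rw [hExc, Set.mem_iUnion₂] at hq
      obtain ⟨s, _, hq⟩ := hq
      exact hq.1
  · intro m n hm hn hmn
    rw [Units.ext_iff, Units.val_mul, IsUnit.unit_spec, IsUnit.unit_spec, IsUnit.unit_spec,
      ← Con.coe_mul, Fp_mul hf _ hm hn hmn]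
  · intro B
    obtain ⟨m₀, hm₀, hp, hF⟩ := exists_prod hf hTinf B L hLT
    refine ⟨m₀, hm₀, hp, ?_, ?_⟩
    · rw [Units.ext_iff, IsUnit.unit_spec, Units.val_one, ← Con.coe_one, eCon_eq, hF]
      change e * e = e * 1
      rw [hidem, mul_one]
    · intro n hn hc
      change e * Fp f Q'ᶜ (m₀ * n) = Fp f Q'ᶜ (m₀ * n)
      rw [Fp_mul hf _ hm₀ hn hc, hF]
      change e * (e * _) = e * _
      rw [← mul_assoc, hidem]
  · intro m n hm hn hmA hnA hgmn hv
    have h1 : Fp f Q'ᶜ m = Fp f Q'ᶜ n := by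
      have := (hg m n).mp hgmn
      rw [← show e * Fp f Q'ᶜ m = Fp f Q'ᶜ m from hmA,
        ← show e * Fp f Q'ᶜ n = Fp f Q'ᶜ n from hnA, this]
    have hQp : ∀ q ∈ Q', q.Prime := by
      intro q hq
      rcases hq with hq | hq
      · exact hQ q hq
      · rw [hExc, Set.mem_iUnion₂] at hq
        obtain ⟨s, _, hq⟩ := hq
        exact hq.1
    rw [f_eq_split hf Q' hm, f_eq_split hf Q' hn, h1, Fp_compl_congr hm hn hQp hv]

end Pool.Agent.Work.MP_0f91f8_co.Mul
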