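import Pool.Agent.Work.MP_0f91f8_co.Mul.Defs

/-!
# A sieve for a sparse set of primes
-/

namespace Pool.Agent.Work.MP_0f91f8_co.Mul

open Finset

lemma sv_card_mod_le (q N c : ℕ) (hq : 0 < q) :
    ((range N).filter (fun a => a ≡ c [MOD q])).card ≤ N / q + 1 := by
  rw [← Nat.count_eq_card_filter_range, Nat.count_modEq_card _ hq]
  split_ifs <;> omega

lemma sv_modEq {q m a a' : ℕ} (hq : q.Prime) (hm : ¬ q ∣ m)
    (h : (q : ℤ) ∣ (m : ℤ) * ((a : ℤ) - a')) : a ≡ a' [MOD q] := by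
  have hqp : Prime (q : ℤ) := Nat.prime_iff_prime_int.1 hq
  rcases hqp.dvd_or_dvd h with h2 | h2
  · exact absurd (by exact_mod_cast h2) hm
  · have : (a' : ℤ) ≡ a [ZMOD q] := (Int.modEq_iff_dvd).2 h2
    exact ((Int.natCast_modEq_iff).1 this).symm

lemma sv_card_quad (q m c e N : ℕ) (hq : q.Prime) (hm : ¬ q ∣ m) :
    ((range N).filter (fun a => q ∣ (c + m * a) ^ 2 + e ^ 2)).card ≤ 2 * (N / q + 1) := by
  classical
  rcases ((range N).filter (fun a => q ∣ (c + m * a) ^ 2 + e ^ 2)).eq_empty_or_nonempty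
    with h | ⟨a₀, h⟩
  · rw [h]; simp
  · rw [mem_filter] at h
    have hqp : Prime (q : ℤ) := Nat.prime_iff_prime_int.1 hq
    have hex : ∃ a₁ : ℕ, ∀ a : ℕ, (q : ℤ) ∣ (c + m * a : ℤ) + (c + m * a₀) →
        a ≡ a₁ [MOD q] := by
      by_cases hne : ∃ a₁ : ℕ, (q : ℤ) ∣ (c + m * a₁ : ℤ) + (c + m * a₀)
      · obtain ⟨a₁, h₁⟩ := hne
        refine ⟨a₁, fun a ha => ?_⟩
        apply sv_modEq hq hm
        have := dvd_sub ha h₁
        have he : (c + m * a : ℤ) + (c + m * a₀) - ((c + m * a₁ : ℤ) + (c + m * a₀)) =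
            (m : ℤ) * ((a : ℤ) - a₁) := by ring
        rwa [he] at this
      · exact ⟨0, fun a ha => absurd ⟨a, ha⟩ hne⟩
    obtain ⟨a₁, ha₁⟩ := hex
    have hsub : (range N).filter (fun a => q ∣ (c + m * a) ^ 2 + e ^ 2) ⊆
        (range N).filter (fun a => a ≡ a₀ [MOD q]) ∪
        (range N).filter (fun a => a ≡ a₁ [MOD q]) := by
      intro a ha
      rw [mem_filter] at ha
      rw [mem_union, mem_filter, mem_filter]
      have h1 : (q : ℤ) ∣ (c + m * a : ℤ) ^ 2 + e ^ 2 := by exact_mod_cast ha.2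
      have h2 : (q : ℤ) ∣ (c + m * a₀ : ℤ) ^ 2 + e ^ 2 := by exact_mod_cast h.2
      have h3 := dvd_sub h1 h2
      have he : (c + m * a : ℤ) ^ 2 + e ^ 2 - ((c + m * a₀ : ℤ) ^ 2 + e ^ 2) =
          ((m : ℤ) * ((a : ℤ) - a₀)) * ((c + m * a : ℤ) + (c + m * a₀)) := by ring
      rw [he] at h3
      rcases hqp.dvd_or_dvd h3 with h4 | h4
      · exact Or.inl ⟨ha.1, sv_modEq hq hm h4⟩
      · exact Or.inr ⟨ha.1, ha₁ a h4⟩
    calc _ ≤ _ := card_le_card hsub
      _ ≤ _ := card_union_le _ _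
      _ ≤ (N / q + 1) + (N / q + 1) :=
        add_le_add (sv_card_mod_le q N a₀ hq.pos) (sv_card_mod_le q N a₁ hq.pos)
      _ = 2 * (N / q + 1) := by ring

lemma sv_card_le_ncard {Q : Set ℕ} (F : Finset ℕ) (hF : ∀ q ∈ F, q ∈ Q) {y : ℕ}
    (hy : ∀ q ∈ F, q ≤ y) : F.card ≤ {q ∈ Q | q ≤ y}.ncard := by
  rw [← Set.ncard_coe_finset]
  refine Set.ncard_le_ncard ?_ ((Set.finite_le_nat y).subset fun q hq => hq.2)
  intro q hq
  exact ⟨hF q hq, hy q hq⟩

/-- The sum of `1 / q` over large elements of `Q` is small. -/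
lemma sv_tail {Q : Set ℕ} (hs : Sparse Q) {η : ℝ} (hη : 0 < η) :
    ∃ b₀ : ℕ, ∀ F : Finset ℕ, (∀ q ∈ F, q ∈ Q ∧ b₀ < q) → ∑ q ∈ F, 1 / (q : ℝ) ≤ η := by
  classical
  obtain ⟨x₀, hx₀⟩ := hs 1
  obtain ⟨j, hj⟩ := exists_pow_lt_of_lt_one (show (0 : ℝ) < η / 4 by positivity)
    (show (1 / 2 : ℝ) < 1 by norm_num)
  set i₀ : ℕ := max x₀ j with hi₀
  refine ⟨4 ^ i₀, fun F hF => ?_⟩
  have key : ∀ K, i₀ ≤ K → ∑ q ∈ F.filter (fun q => q ≤ 4 ^ K), 1 / (q : ℝ) ≤
      4 / 2 ^ i₀ - 4 / 2 ^ K := by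
    intro K hK
    induction K, hK using Nat.le_induction with
    | base =>
      have : F.filter (fun q => q ≤ 4 ^ i₀) = ∅ := by
        rw [filter_eq_empty_iff]
        intro q hq
        exact not_le.2 (hF q hq).2
      rw [this, sum_empty, sub_self]
    | succ K hK ih =>
      have hsplit : F.filter (fun q => q ≤ 4 ^ (K + 1)) =
          F.filter (fun q => q ≤ 4 ^ K) ∪ F.filter (fun q => 4 ^ K < q ∧ q ≤ 4 ^ (K + 1)) := by
        ext q
        simp only [mem_filter, mem_union]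
        have : 4 ^ K ≤ 4 ^ (K + 1) := Nat.pow_le_pow_right (by norm_num) (by omega)
        constructor
        · rintro ⟨h1, h2⟩
          rcases le_or_gt q (4 ^ K) with h3 | h3
          · exact Or.inl ⟨h1, h3⟩
          · exact Or.inr ⟨h1, h3, h2⟩
        · rintro (⟨h1, h2⟩ | ⟨h1, h2, h3⟩)
          · exact ⟨h1, h2.trans this⟩
          · exact ⟨h1, h3⟩
      have hdisj : Disjoint (F.filter (fun q => q ≤ 4 ^ K))
          (F.filter (fun q => 4 ^ K < q ∧ q ≤ 4 ^ (K + 1))) := by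
        rw [disjoint_left]
        intro q h1 h2
        rw [mem_filter] at h1 h2
        exact absurd h1.2 (not_le.2 h2.2.1)
      rw [hsplit, sum_union hdisj]
      have hcard : (F.filter (fun q => 4 ^ K < q ∧ q ≤ 4 ^ (K + 1))).card ≤ 2 ^ (K + 1) := by
        have h1 : (F.filter (fun q => 4 ^ K < q ∧ q ≤ 4 ^ (K + 1))).card ≤
            {q ∈ Q | q ≤ (2 ^ (K + 1)) ^ 2}.ncard := by
          refine sv_card_le_ncard _ (fun q hq => (hF q (mem_filter.1 hq).1).1) fun q hq => ?_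
          have := (mem_filter.1 hq).2.2
          calc q ≤ 4 ^ (K + 1) := this
            _ = (2 ^ (K + 1)) ^ 2 := by rw [← pow_mul, mul_comm, pow_mul]; norm_num
        have h2 := hx₀ (2 ^ (K + 1)) (by
          have h3 : K + 1 < 2 ^ (K + 1) := Nat.lt_two_pow_self
          have h4 : x₀ ≤ i₀ := le_max_left _ _
          omega)
        rw [one_mul] at h2
        exact h1.trans h2
      have hsum : ∑ q ∈ F.filter (fun q => 4 ^ K < q ∧ q ≤ 4 ^ (K + 1)), 1 / (q : ℝ) ≤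
          2 / 2 ^ K := by
        calc ∑ q ∈ F.filter (fun q => 4 ^ K < q ∧ q ≤ 4 ^ (K + 1)), 1 / (q : ℝ)
            ≤ ∑ q ∈ F.filter (fun q => 4 ^ K < q ∧ q ≤ 4 ^ (K + 1)), 1 / (4 : ℝ) ^ K := by
              refine sum_le_sum fun q hq => ?_
              have h1 := (mem_filter.1 hq).2.1
              apply one_div_le_one_div_of_le (by positivity)
              exact_mod_cast h1.le
          _ = (F.filter (fun q => 4 ^ K < q ∧ q ≤ 4 ^ (K + 1))).card * (1 / (4 : ℝ) ^ K) := by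
              rw [sum_const, nsmul_eq_mul]
          _ ≤ 2 ^ (K + 1) * (1 / (4 : ℝ) ^ K) := by
              apply mul_le_mul_of_nonneg_right _ (by positivity)
              exact_mod_cast hcard
          _ = 2 / 2 ^ K := by
              have h1 : (4 : ℝ) ^ K = 2 ^ K * 2 ^ K := by
                rw [← mul_pow]; norm_num
              rw [h1, pow_succ]
              have h2 : (2 : ℝ) ^ K ≠ 0 := by positivity
              field_simp
      have h3 : (4 : ℝ) / 2 ^ (K + 1) = 2 / 2 ^ K := by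
        rw [pow_succ]
        have h2 : (2 : ℝ) ^ K ≠ 0 := by positivity
        field_simp
        norm_num
      have h4 : (4 : ℝ) / 2 ^ K = 2 / 2 ^ K + 2 / 2 ^ K := by
        rw [← add_div]; norm_num
      rw [h3]
      linarith
  have hfull : F.filter (fun q => q ≤ 4 ^ (max i₀ (F.sup id))) = F := by
    rw [filter_eq_self]
    intro q hq
    have h1 : q ≤ F.sup id := le_sup (f := id) hq
    have h2 : max i₀ (F.sup id) < 4 ^ (max i₀ (F.sup id)) := Nat.lt_pow_self (by norm_num)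
    have h3 := le_max_right i₀ (F.sup id)
    omega
  have h1 := key (max i₀ (F.sup id)) (le_max_left _ _)
  rw [hfull] at h1
  have h2 : (0 : ℝ) ≤ 4 / 2 ^ (max i₀ (F.sup id)) := by positivity
  have h3 : (4 : ℝ) / 2 ^ i₀ ≤ η := by
    have h4 : (1 / 2 : ℝ) ^ i₀ ≤ (1 / 2) ^ j :=
      pow_le_pow_of_le_one (by norm_num) (by norm_num) (le_max_right _ _)
    have h5 : (4 : ℝ) / 2 ^ i₀ = 4 * (1 / 2) ^ i₀ := by
      rw [one_div, inv_pow]; rfl
    rw [h5]
    linarith
  linarith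

theorem sieve {Q : Set ℕ} (hQ : ∀ q ∈ Q, q.Prime) (hs : Sparse Q) : Siev Q := by
  classical
  intro H
  obtain ⟨b₀, hb₀⟩ := sv_tail hs (η := 1 / (8 * (H + 1))) (by positivity)
  refine ⟨b₀, fun b hb m hm hmQ E hE ε hε => ?_⟩
  set δ : ℝ := min ε 1 with hδ
  have hδ0 : 0 < δ := lt_min hε one_pos
  have hδ1 : δ ≤ 1 := min_le_right _ _
  have hδε : δ ≤ ε := min_le_left _ _
  set C : ℕ := m + E.sup Prod.fst + E.sup Prod.snd with hC
  have hC1 : 1 ≤ C := by omega
  set k : ℕ := ⌈8 * H * C / δ⌉₊ + 1 with hk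
  have hk0 : (0 : ℝ) < k := by rw [hk]; push_cast; positivity
  have hk1 : 8 * H * C ≤ δ * k := by
    have h1 : (8 * H * C / δ : ℝ) ≤ ⌈(8 * H * C / δ : ℝ)⌉₊ := Nat.le_ceil _
    have h2 : (8 * H * C / δ : ℝ) ≤ k := by rw [hk]; push_cast; linarith
    rw [div_le_iff₀ hδ0] at h2
    linarith
  obtain ⟨x₀, hx₀⟩ := hs k
  refine ⟨max x₀ 1, fun X hX => ?_⟩
  have hX0 : x₀ ≤ X := (le_max_left _ _).trans hX
  have hX1 : 1 ≤ X := (le_max_right _ _).trans hX
  have hXpos : (0 : ℝ) < X := by exact_mod_cast hX1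
  set N : ℕ := ⌊δ * X⌋₊ + 1 with hN
  have hN1 : δ * X < N := by rw [hN]; push_cast; exact Nat.lt_floor_add_one _
  have hN2 : ∀ a < N, (a : ℝ) ≤ δ * X := by
    intro a ha
    have h1 : a ≤ ⌊δ * X⌋₊ := by omega
    exact (Nat.cast_le.2 h1).trans (Nat.floor_le (by positivity))
  have hNpos : (0 : ℝ) < N := by rw [hN]; push_cast; positivity
  have hA2 : ∀ a < N, X + a ≤ 2 * X := by
    intro a ha
    have h1 := hN2 a ha
    have h2 : (a : ℝ) ≤ X := h1.trans (by nlinarith)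
    have h3 : a ≤ X := by exact_mod_cast h2
    omega
  set QF : Finset ℕ := (Ioc b ((2 * C * X) ^ 2)).filter (fun q => q ∈ Q) with hQF
  let bad : ℕ → Finset ℕ := fun q => E.biUnion fun p =>
    (range N).filter (fun a => q ∣ ((m * X + p.1) + m * a) ^ 2 + p.2 ^ 2)
  have hbad : ∀ q ∈ QF, ((bad q).card : ℝ) ≤ 2 * H * ((N : ℝ) * (1 / q) + 1) := by
    intro q hq
    rw [hQF, mem_filter, mem_Ioc] at hq
    have hqp := hQ q hq.2
    have hqm := hmQ q hq.2 hq.1.1
    have h1 : (bad q).card ≤ H * (2 * (N / q + 1)) := by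
      refine le_trans card_biUnion_le ?_
      calc _ ≤ ∑ _p ∈ E, (2 * (N / q + 1)) :=
            sum_le_sum fun p _ => sv_card_quad q m (m * X + p.1) p.2 N hqp hqm
        _ = E.card * (2 * (N / q + 1)) := by simp
        _ ≤ H * (2 * (N / q + 1)) := Nat.mul_le_mul_right _ hE
    have h2 : ((N / q : ℕ) : ℝ) ≤ (N : ℝ) / q := Nat.cast_div_le
    calc ((bad q).card : ℝ) ≤ ((H * (2 * (N / q + 1)) : ℕ) : ℝ) := by exact_mod_cast h1
      _ = 2 * H * (((N / q : ℕ) : ℝ) + 1) := by push_cast; ring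
      _ ≤ 2 * H * ((N : ℝ) / q + 1) := by
        apply mul_le_mul_of_nonneg_left _ (by positivity)
        linarith
      _ = 2 * H * ((N : ℝ) * (1 / q) + 1) := by ring
  have hQFcard : (k : ℝ) * QF.card ≤ 2 * C * X := by
    have h1 : QF.card ≤ {q ∈ Q | q ≤ (2 * C * X) ^ 2}.ncard := by
      refine sv_card_le_ncard _ (fun q hq => (mem_filter.1 hq).2) fun q hq => ?_
      exact (mem_Ioc.1 (mem_filter.1 hq).1).2
    have h2 := hx₀ (2 * C * X) (by nlinarith)
    have h3 : k * QF.card ≤ 2 * C * X := (Nat.mul_le_mul_left _ h1).trans h2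
    exact_mod_cast h3
  have hQFsum : ∑ q ∈ QF, 1 / (q : ℝ) ≤ 1 / (8 * (H + 1)) := by
    apply hb₀
    intro q hq
    rw [hQF, mem_filter, mem_Ioc] at hq
    exact ⟨hq.2, by omega⟩
  have hcard : ((QF.biUnion bad).card : ℝ) < N := by
    have h1 : ((QF.biUnion bad).card : ℝ) ≤ ∑ q ∈ QF, 2 * H * ((N : ℝ) * (1 / q) + 1) := by
      calc ((QF.biUnion bad).card : ℝ) ≤ ((∑ q ∈ QF, (bad q).card : ℕ) : ℝ) := by
            exact_mod_cast card_biUnion_le
        _ = ∑ q ∈ QF, ((bad q).card : ℝ) := by push_cast; rfl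
        _ ≤ _ := sum_le_sum hbad
    have h2 : ∑ q ∈ QF, 2 * (H : ℝ) * ((N : ℝ) * (1 / q) + 1) =
        2 * H * (N * ∑ q ∈ QF, 1 / (q : ℝ) + QF.card) := by
      rw [← mul_sum, sum_add_distrib, ← mul_sum, sum_const, nsmul_eq_mul, mul_one]
    rw [h2] at h1
    have h3 : 2 * (H : ℝ) * (N * ∑ q ∈ QF, 1 / (q : ℝ)) ≤ N / 4 := by
      calc 2 * (H : ℝ) * (N * ∑ q ∈ QF, 1 / (q : ℝ)) ≤ 2 * H * (N * (1 / (8 * (H + 1)))) := by
            apply mul_le_mul_of_nonneg_left _ (by positivity)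
            exact mul_le_mul_of_nonneg_left hQFsum hNpos.le
        _ = (N / 4) * (H / (H + 1)) := by field_simp; ring
        _ ≤ (N / 4) * 1 := by
            apply mul_le_mul_of_nonneg_left _ (by positivity)
            rw [div_le_one (by positivity)]
            linarith
        _ = N / 4 := mul_one _
    have h4 : 2 * (H : ℝ) * QF.card ≤ N / 2 := by
      have h5 : (k : ℝ) * (2 * H * QF.card) ≤ k * (N / 2) := by
        calc (k : ℝ) * (2 * H * QF.card) = 2 * H * (k * QF.card) := by ring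
          _ ≤ 2 * H * (2 * C * X) := mul_le_mul_of_nonneg_left hQFcard (by positivity)
          _ = (8 * H * C) * X / 2 := by ring
          _ ≤ (δ * k) * X / 2 := by
              have := mul_le_mul_of_nonneg_right hk1 hXpos.le
              linarith
          _ = k * (δ * X / 2) := by ring
          _ ≤ k * (N / 2) := by
              apply mul_le_mul_of_nonneg_left _ hk0.le
              linarith
      exact le_of_mul_le_mul_left h5 hk0
    have h6 : 2 * (H : ℝ) * (N * ∑ q ∈ QF, 1 / (q : ℝ) + QF.card) =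
        2 * (H : ℝ) * (N * ∑ q ∈ QF, 1 / (q : ℝ)) + 2 * H * QF.card := by ring
    rw [h6] at h1
    linarith
  have hcard' : (QF.biUnion bad).card < (range N).card := by
    rw [card_range]
    exact_mod_cast hcard
  obtain ⟨a, haN, ha⟩ := exists_mem_notMem_of_card_lt_card hcard'
  rw [mem_range] at haN
  refine ⟨X + a, Nat.le_add_right _ _, ?_, ?_⟩
  · push_cast
    have h1 := hN2 a haN
    have h2 : δ * X ≤ ε * X := mul_le_mul_of_nonneg_right hδε hXpos.le
    linarith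
  · intro q hqQ hqb p hp hdvd
    apply ha
    rw [mem_biUnion]
    have e1 : m * (X + a) + p.1 = (m * X + p.1) + m * a := by ring
    have hle1 : p.1 ≤ E.sup Prod.fst := le_sup (f := Prod.fst) hp
    have hle2 : p.2 ≤ E.sup Prod.snd := le_sup (f := Prod.snd) hp
    have hle3 : m * (X + a) + p.1 + p.2 ≤ 2 * C * X := by
      have h1 : m * (X + a) ≤ m * (2 * X) := Nat.mul_le_mul_left _ (hA2 a haN)
      have h2 : p.1 * 1 ≤ E.sup Prod.fst * (2 * X) := Nat.mul_le_mul hle1 (by omega)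
      have h3 : p.2 * 1 ≤ E.sup Prod.snd * (2 * X) := Nat.mul_le_mul hle2 (by omega)
      calc m * (X + a) + p.1 + p.2
          ≤ m * (2 * X) + E.sup Prod.fst * (2 * X) + E.sup Prod.snd * (2 * X) := by omega
        _ = 2 * C * X := by rw [hC]; ring
    have hpos : 0 < (m * (X + a) + p.1) ^ 2 + p.2 ^ 2 := by
      have : 0 < m * (X + a) := Nat.mul_pos hm (by omega)
      positivity
    refine ⟨q, ?_, ?_⟩
    · rw [hQF, mem_filter, mem_Ioc]
      refine ⟨⟨hqb, ?_⟩, hqQ⟩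
      calc q ≤ (m * (X + a) + p.1) ^ 2 + p.2 ^ 2 := Nat.le_of_dvd hpos hdvd
        _ ≤ (m * (X + a) + p.1 + p.2) ^ 2 := by
            nlinarith [Nat.zero_le ((m * (X + a) + p.1) * p.2)]
        _ ≤ (2 * C * X) ^ 2 := Nat.pow_le_pow_left hle3 2
    · simp only [bad, mem_biUnion, mem_filter, mem_range]
      exact ⟨p, hp, haN, by rw [← e1]; exact hdvd⟩

end Pool.Agent.Work.MP_0f91f8_co.Mul
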