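import Pool.Agent.Work.MP_0f91f8_co.Mul.Group
import Pool.Agent.Work.MP_0f91f8_co.Mul.Sieve
import Pool.Agent.Work.MP_0f91f8_co.Mul.Monoid

/-!
The theorem for multiplicative functions with values in a finite commutative monoid.
-/

namespace Pool.Agent.Work.MP_0f91f8_co.Mul

theorem main {S : Type} [CommMonoid S] [Finite S] {f : ℕ → S} (hf : Mult f) {Q : Set ℕ}
    (hQ : ∀ q ∈ Q, q.Prime) (hs : Sparse Q) {κ : Type} [Finite κ] (c : ℕ → κ) (δ : ℝ)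
    (hδ : 0 < δ)
    (hc : ∀ m n : ℕ, 0 < m → 0 < n → f m = f n →
      (∀ q ∈ Q, padicValNat q m = padicValNat q n) → |(m : ℝ) - n| ≤ δ * m → c m = c n) :
    ∃ x y z : ℕ, 0 < x ∧ 0 < y ∧ 0 < z ∧ x ^ 2 + y ^ 2 = z ^ 2 ∧ c x = c y ∧ c y = c z := by
  obtain ⟨Q', hQQ', hQ', hs', G, iG, iF, g, A, hg, hA, h⟩ := monoid_lemma f hf hQ hs
  exact group_version hg hQ' (sieve hQ' hs') hA c δ hδ fun m n hm hn hmA hnA hgm hv hd =>
    hc m n hm hn (h m n hm hn hmA hnA hgm hv) (fun q hq => hv q (hQQ' hq)) hd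

end Pool.Agent.Work.MP_0f91f8_co.Mul
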