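import Pool.Agent.Work.MP_0f91f8_co.Mul.Chain

/-!
Products of structured Gaussian integers.
-/

namespace Pool.Agent.Work.MP_0f91f8_co.Mul

theorem Mult.one {G : Type} [CommGroup G] {f : ℕ → G} (hf : Mult f) : f 1 = 1 := by
  have := hf 1 1 one_pos one_pos (Nat.coprime_one_right 1)
  rw [mul_one] at this
  exact mul_eq_left.1 this.symm

section Pr

variable {G : Type} {f : ℕ → G} {Q : Set ℕ} {M K D Y l w : ℕ}

theorem Pr.copr (h : Pr f Q M K D Y l w) {c : ℤ} {t : ℕ} (ht : ∀ p, p.Prime → p ∣ t → p ∣ w) :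
    t.Coprime ((Y : ℤ) + c * w).natAbs := by
  refine Nat.coprime_of_dvd ?_
  intro p hp h1 h2
  have h3 : p ∣ w := ht p hp h1
  have h4 : (p : ℤ) ∣ (Y : ℤ) + c * w := Int.natCast_dvd.2 h2
  have h5 : (p : ℤ) ∣ c * (w : ℤ) := Dvd.dvd.mul_left (by exact_mod_cast h3) _
  have h6 : (p : ℤ) ∣ (Y : ℤ) := (dvd_add_left h5).1 h4
  have h7 : p ∣ Y := by exact_mod_cast h6
  have h8 := Nat.dvd_gcd h7 h3
  rw [h.cop.gcd_eq_one] at h8
  exact hp.one_lt.ne' (Nat.dvd_one.1 h8)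

theorem Pr.coprM (h : Pr f Q M K D Y l w) {c : ℤ} {t : ℕ} (ht0 : 0 < t) (ht : t ≤ M) :
    t.Coprime ((Y : ℤ) + c * w).natAbs :=
  h.copr fun p hp hpt => h.small p hp (Or.inl (le_trans (Nat.le_of_dvd ht0 hpt) ht))

theorem Pr.copr_nu (h : Pr f Q M K D Y l w) {t : ℕ} (ht : ∀ p, p.Prime → p ∣ t → p ∣ w) :
    t.Coprime (Y ^ 2 + (l * w) ^ 2) := by
  refine Nat.coprime_of_dvd ?_
  intro p hp h1 h2
  have h3 : p ∣ w := ht p hp h1
  have h5 : p ∣ (l * w) ^ 2 := dvd_pow (h3.mul_left _) two_ne_zero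
  have h6 : p ∣ Y ^ 2 := (Nat.dvd_add_left h5).1 h2
  have h7 : p ∣ Y := hp.dvd_of_dvd_pow h6
  have h8 := Nat.dvd_gcd h7 h3
  rw [h.cop.gcd_eq_one] at h8
  exact hp.one_lt.ne' (Nat.dvd_one.1 h8)

/-- Two perturbations are coprime. -/
theorem Pr.copr_pair (h : Pr f Q M K D Y l w) {c d : ℤ} {t : ℕ}
    (ht : ∀ p, p.Prime → p ∣ t → p ∣ w) {s : ℤ} (hs : (d - c) * s = t) :
    ((Y : ℤ) + c * w).natAbs.Coprime ((Y : ℤ) + d * w).natAbs := by
  refine Nat.coprime_of_dvd ?_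
  intro p hp h1 h2
  have h3 : (p : ℤ) ∣ (Y : ℤ) + c * w := Int.natCast_dvd.2 h1
  have h4 : (p : ℤ) ∣ (Y : ℤ) + d * w := Int.natCast_dvd.2 h2
  have hpw : p ∣ w := by
    have h5 : (p : ℤ) ∣ (d - c) * w := by
      have := dvd_sub h4 h3
      have e : (Y : ℤ) + d * w - (Y + c * w) = (d - c) * w := by ring
      rwa [e] at this
    rcases (Nat.prime_iff_prime_int.1 hp).dvd_or_dvd h5 with h6 | h6
    · have h7 : (p : ℤ) ∣ (t : ℤ) := by
        rw [← hs]; exact h6.mul_right _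
      exact ht p hp (by exact_mod_cast h7)
    · exact_mod_cast h6
  have h5 := h.copr (c := c) (t := p) (fun r hr hrp => by
    rcases (Nat.dvd_prime hp).1 hrp with h' | h'
    · exact absurd h' hr.one_lt.ne'
    · rwa [h'])
  have h6 := Nat.dvd_gcd dvd_rfl h1
  rw [h5.gcd_eq_one] at h6
  exact hp.one_lt.ne' (Nat.dvd_one.1 h6)

/-- The ratio of two perturbations is close to one. -/
theorem Pr.ratio (h : Pr f Q M K D Y l w) (hK : 4 ≤ K) {c d : ℤ} (hc : |c| ≤ (M * l : ℕ))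
    (hd : |d| ≤ (M * l : ℕ)) :
    (1 - 4 / (K : ℝ)) * (((Y : ℤ) + c * w).natAbs : ℝ) ≤ (((Y : ℤ) + d * w).natAbs : ℝ) := by
  have hc0 := (h.lin c hc).1
  have hd0 := (h.lin d hd).1
  have e1 : (((Y : ℤ) + c * w).natAbs : ℝ) = (Y : ℝ) + c * w := by
    have : ((((Y : ℤ) + c * w).natAbs : ℤ) : ℝ) = (((Y : ℤ) + c * w : ℤ) : ℝ) := by
      rw [Int.natAbs_of_nonneg hc0.le]
    push_cast at this
    rw [← this]
    simp
  have e2 : (((Y : ℤ) + d * w).natAbs : ℝ) = (Y : ℝ) + d * w := by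
    have : ((((Y : ℤ) + d * w).natAbs : ℤ) : ℝ) = (((Y : ℤ) + d * w : ℤ) : ℝ) := by
      rw [Int.natAbs_of_nonneg hd0.le]
    push_cast at this
    rw [← this]
    simp
  rw [e1, e2]
  have hKr : (4 : ℝ) ≤ K := by exact_mod_cast hK
  have hK0 : (0 : ℝ) < K := by linarith
  have hw0 : (0 : ℝ) ≤ w := Nat.cast_nonneg w
  have hc' : (c : ℝ) ≤ M * l := by
    have := (abs_le.1 hc).2
    exact_mod_cast this
  have hd' : -((M : ℝ) * l) ≤ d := by
    have := (abs_le.1 hd).1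
    exact_mod_cast this
  have hsz : (K : ℝ) * (M * l * w) ≤ Y := by exact_mod_cast h.size
  set e : ℝ := (M : ℝ) * l * w with he
  have h1 : (c : ℝ) * w ≤ e := mul_le_mul_of_nonneg_right hc' hw0
  have h2 : -e ≤ (d : ℝ) * w := by
    have := mul_le_mul_of_nonneg_right hd' hw0
    linarith
  have he0 : 0 ≤ e := by positivity
  have hY0 : (0 : ℝ) ≤ Y := Nat.cast_nonneg Y
  have hr : 0 ≤ 1 - 4 / (K : ℝ) := by
    rw [sub_nonneg, div_le_one hK0]; exact hKr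
  have h3 : (1 - 4 / (K : ℝ)) * ((Y : ℝ) + c * w) ≤ (1 - 4 / (K : ℝ)) * (Y + e) :=
    mul_le_mul_of_nonneg_left (by linarith) hr
  have h4 : (1 - 4 / (K : ℝ)) * (Y + e) ≤ Y - e := by
    have h5 : (K : ℝ) * ((1 - 4 / (K : ℝ)) * (Y + e)) ≤ K * (Y - e) := by
      have : (K : ℝ) * ((1 - 4 / (K : ℝ)) * (Y + e)) = (K - 4) * (Y + e) := by
        field_simp
      rw [this]
      nlinarith
    exact le_of_mul_le_mul_left h5 hK0
  linarith

end Pr

variable {G : Type} [CommGroup G]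

/-- The state of a product of structured Gaussian integers; the first pair is `Y₁ + i l₁ w₁`
with dilation `D`, the product is `q + i p` with `p = l₁ w₁ B` and `q = p + C`. -/
structure Seg (f : ℕ → G) (Q : Set ℕ) (M K m D Y₁ l₁ w₁ q B p C : ℕ) (g h : G) : Prop where
  p_eq : p = l₁ * w₁ * B
  q_eq : q = p + C
  B_pos : 0 < B
  C_pos : 0 < C
  p_pos : 0 < p
  fq : f q = f Y₁ * g
  fB : f B = g
  fS : f (q + p) = f Y₁ * g
  fC : f C = f Y₁ * g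
  fV : f (q ^ 2 + p ^ 2) = h
  Qfr : ∀ r ∈ Q, ¬ r ∣ q
  QB : ∀ r ∈ Q, ¬ r ∣ B
  QS : ∀ r ∈ Q, ¬ r ∣ q + p
  QC : ∀ r ∈ Q, ¬ r ∣ C
  QV : ∀ r ∈ Q, ¬ r ∣ q ^ 2 + p ^ 2
  Xq : (2 * D * l₁ * w₁).Coprime q
  XB : (2 * D * l₁ * w₁).Coprime B
  qB : q.Coprime B
  DS : D.Coprime (q + p)
  DC : D.Coprime C
  SC : (q + p).Coprime C
  DV : D.Coprime (q ^ 2 + p ^ 2)
  le_M : (q + p) ^ 2 ≤ M
  X_le_M : 2 * D * l₁ * w₁ ≤ M
  lo : (1 - 4 / (K : ℝ)) ^ m * q ≤ B * Y₁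
  up : (1 - 4 / (K : ℝ)) ^ m * (B * Y₁) ≤ q

theorem Pr.seg {f : ℕ → G} (hf : Mult f) {Q : Set ℕ} (hQ : ∀ q ∈ Q, q.Prime)
    {M K D Y l w M' : ℕ} (hM : 2 ≤ M) (hP : Pr f Q M K D Y l w)
    (h1 : (Y + l * w) ^ 2 ≤ M') (h2 : 2 * D * l * w ≤ M') :
    Seg f Q M' K 0 D Y l w Y 1 (l * w) (Y - l * w) 1 (f (Y ^ 2 + (l * w) ^ 2)) := by
  have hlpos := hP.l_pos
  have hwpos := hP.w_pos
  have hYpos := hP.Y_pos
  have hlM : l ≤ M * l := Nat.le_mul_of_pos_left _ (by omega)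
  have hlMz : (l : ℤ) ≤ ((M * l : ℕ) : ℤ) := by exact_mod_cast hlM
  obtain ⟨a1, a2, a3⟩ := hP.lin l (by rw [abs_of_nonneg (by positivity)]; exact hlMz)
  obtain ⟨b1, b2, b3⟩ := hP.lin (-l) (by rw [abs_neg, abs_of_nonneg (by positivity)]; exact hlMz)
  obtain ⟨-, -, c3⟩ := hP.lin 0 (by rw [abs_zero]; positivity)
  have e1 : ((Y : ℤ) + l * w).natAbs = Y + l * w := by
    have : (Y : ℤ) + l * w = ((Y + l * w : ℕ) : ℤ) := by push_cast; ring
    rw [this, Int.natAbs_natCast]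
  have hlt : l * w < Y := by
    have : ((l * w : ℕ) : ℤ) < Y := by push_cast; linarith
    exact_mod_cast this
  have e2z : (Y : ℤ) + -l * w = ((Y - l * w : ℕ) : ℤ) := by
    rw [Nat.cast_sub hlt.le]; push_cast; ring
  have e2 : ((Y : ℤ) + -l * w).natAbs = Y - l * w := by
    rw [e2z, Int.natAbs_natCast]
  have hsm : ∀ p, p.Prime → p ∣ 2 * D * l * w → p ∣ w := by
    intro p hp hd
    rcases hp.dvd_mul.1 hd with h | h
    · rcases hp.dvd_mul.1 h with h | h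
      · rcases hp.dvd_mul.1 h with h | h
        · exact hP.small p hp (Or.inl (le_trans (Nat.le_of_dvd two_pos h) hM))
        · exact hP.small p hp (Or.inr (Or.inl h))
      · exact hP.small p hp (Or.inr (Or.inr h))
    · exact h
  have hDs : ∀ p, p.Prime → p ∣ D → p ∣ w := fun p hp hd => hP.small p hp (Or.inr (Or.inl hd))
  have hcY : ∀ t : ℕ, (∀ p, p.Prime → p ∣ t → p ∣ w) → t.Coprime Y := by
    intro t ht
    have := hP.copr (c := 0) ht
    simpa using this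
  refine
    { p_eq := by rw [mul_one]
      q_eq := by omega
      B_pos := one_pos
      C_pos := by omega
      p_pos := Nat.mul_pos hlpos hwpos
      fq := by rw [mul_one]
      fB := hf.one
      fS := by rw [mul_one, ← a2, e1]
      fC := by rw [mul_one, ← b2, e2]
      fV := rfl
      Qfr := ?_
      QB := ?_
      QS := ?_
      QC := ?_
      QV := hP.nu
      Xq := hcY _ hsm
      XB := Nat.coprime_one_right _
      qB := Nat.coprime_one_right _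
      DS := by rw [← e1]; exact hP.copr hDs
      DC := by rw [← e2]; exact hP.copr hDs
      SC := ?_
      DV := hP.copr_nu hDs
      le_M := h1
      X_le_M := h2
      lo := by simp
      up := by simp }
  · intro r hr hd
    apply c3 r hr
    simp only [zero_mul, add_zero]
    exact_mod_cast hd
  · intro r hr hd
    exact (hQ r hr).one_lt.ne' (Nat.dvd_one.1 hd)
  · intro r hr hd
    apply a3 r hr
    exact_mod_cast hd
  · intro r hr hd
    apply b3 r hr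
    rw [e2z]
    exact_mod_cast hd
  · rw [← e1, ← e2]
    refine hP.copr_pair (t := 2 * l) (s := -1) ?_ (by push_cast; ring)
    intro p hp hd
    rcases hp.dvd_mul.1 hd with h | h
    · exact hP.small p hp (Or.inl (le_trans (Nat.le_of_dvd two_pos h) hM))
    · exact hP.small p hp (Or.inr (Or.inr h))

/-- Free of `Q` is stable under products. -/
theorem qfree_mul {Q : Set ℕ} (hQ : ∀ q ∈ Q, q.Prime) {a b : ℕ} (ha : ∀ r ∈ Q, ¬ r ∣ a)
    (hb : ∀ r ∈ Q, ¬ r ∣ b) : ∀ r ∈ Q, ¬ r ∣ a * b := by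
  intro r hr hd
  rcases (hQ r hr).dvd_mul.1 hd with h | h
  · exact ha r hr h
  · exact hb r hr h

theorem Seg.step {f : ℕ → G} (hf : Mult f) {Q : Set ℕ} (hQ : ∀ q ∈ Q, q.Prime)
    {M K m D Y₁ l₁ w₁ q B p C : ℕ} {g h : G} (hM : 2 ≤ M) (hK : 4 ≤ K)
    (hs : Seg f Q M K m D Y₁ l₁ w₁ q B p C g h) {D₂ Y l w : ℕ} (hP : Pr f Q M K D₂ Y l w)
    {M' : ℕ} (hM' : M * (Y + l * w) ^ 2 ≤ M') :
    ∃ q' B' p' C' : ℕ, Seg f Q M' K (m + 1) D Y₁ l₁ w₁ q' B' p' C' (g * f Y)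
      (h * f (Y ^ 2 + (l * w) ^ 2)) := by
  have hp0 := hs.p_pos
  have hC0 := hs.C_pos
  have hB0 := hs.B_pos
  have hqe := hs.q_eq
  have hl0 := hP.l_pos
  have hw0 := hP.w_pos
  have hY0 := hP.Y_pos
  have hq0 : 0 < q := by omega
  have hSM : q + p ≤ M := by
    have h1 := hs.le_M
    have h2 : q + p ≤ (q + p) ^ 2 := Nat.le_self_pow two_ne_zero _
    omega
  have hVM : q ^ 2 + p ^ 2 ≤ M := by
    have h1 := hs.le_M
    have h2 : q ^ 2 + p ^ 2 ≤ (q + p) ^ 2 := by nlinarith [Nat.zero_le (q * p)]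
    omega
  have hBp : B ≤ p := by
    rw [hs.p_eq]
    apply Nat.le_mul_of_pos_left
    rcases Nat.eq_zero_or_pos (l₁ * w₁) with h0 | h0
    · rw [hs.p_eq, h0, zero_mul] at hp0
      exact absurd hp0 (lt_irrefl _)
    · exact h0
  obtain ⟨a, ha⟩ := hP.dvd_l q hq0 (by omega)
  obtain ⟨b, hb⟩ := hP.dvd_l p hp0 (by omega)
  obtain ⟨c, hc⟩ := hP.dvd_l (q + p) (by omega) hSM
  obtain ⟨d, hd⟩ := hP.dvd_l C hC0 (by omega)
  have hal : a ≤ l := by rw [ha]; exact Nat.le_mul_of_pos_left _ hq0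
  have hbl : b ≤ l := by rw [hb]; exact Nat.le_mul_of_pos_left _ hp0
  have hcl : c ≤ l := by rw [hc]; exact Nat.le_mul_of_pos_left _ (by omega)
  have hdl : d ≤ l := by rw [hd]; exact Nat.le_mul_of_pos_left _ hC0
  -- the four coefficients
  obtain ⟨c1, hc1⟩ : ∃ c1 : ℤ, c1 = -((p * a : ℕ) : ℤ) := ⟨_, rfl⟩
  obtain ⟨c2, hc2⟩ : ∃ c2 : ℤ, c2 = ((q * b : ℕ) : ℤ) := ⟨_, rfl⟩
  obtain ⟨c3, hc3⟩ : ∃ c3 : ℤ, c3 = ((C * c : ℕ) : ℤ) := ⟨_, rfl⟩
  obtain ⟨c4, hc4⟩ : ∃ c4 : ℤ, c4 = -(((q + p) * d : ℕ) : ℤ) := ⟨_, rfl⟩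
  have B1 : |c1| ≤ (M * l : ℕ) := by
    rw [hc1, abs_neg, Nat.abs_cast]
    exact_mod_cast Nat.mul_le_mul (by omega) hal
  have B2 : |c2| ≤ (M * l : ℕ) := by
    rw [hc2, Nat.abs_cast]
    exact_mod_cast Nat.mul_le_mul (by omega) hbl
  have B3 : |c3| ≤ (M * l : ℕ) := by
    rw [hc3, Nat.abs_cast]
    exact_mod_cast Nat.mul_le_mul (by omega) hcl
  have B4 : |c4| ≤ (M * l : ℕ) := by
    rw [hc4, abs_neg, Nat.abs_cast]
    exact_mod_cast Nat.mul_le_mul hSM hdl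
  obtain ⟨P1, F1, Q1⟩ := hP.lin c1 B1
  obtain ⟨P2, F2, Q2⟩ := hP.lin c2 B2
  obtain ⟨P3, F3, Q3⟩ := hP.lin c3 B3
  obtain ⟨P4, F4, Q4⟩ := hP.lin c4 B4
  obtain ⟨k1, hk1⟩ : ∃ k1 : ℕ, k1 = ((Y : ℤ) + c1 * w).natAbs := ⟨_, rfl⟩
  obtain ⟨k2, hk2⟩ : ∃ k2 : ℕ, k2 = ((Y : ℤ) + c2 * w).natAbs := ⟨_, rfl⟩
  obtain ⟨k3, hk3⟩ : ∃ k3 : ℕ, k3 = ((Y : ℤ) + c3 * w).natAbs := ⟨_, rfl⟩
  obtain ⟨k4, hk4⟩ : ∃ k4 : ℕ, k4 = ((Y : ℤ) + c4 * w).natAbs := ⟨_, rfl⟩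
  have K1 : (k1 : ℤ) = (Y : ℤ) + c1 * w := by rw [hk1]; exact Int.natAbs_of_nonneg P1.le
  have K2 : (k2 : ℤ) = (Y : ℤ) + c2 * w := by rw [hk2]; exact Int.natAbs_of_nonneg P2.le
  have K3 : (k3 : ℤ) = (Y : ℤ) + c3 * w := by rw [hk3]; exact Int.natAbs_of_nonneg P3.le
  have K4 : (k4 : ℤ) = (Y : ℤ) + c4 * w := by rw [hk4]; exact Int.natAbs_of_nonneg P4.le
  have haz : (l : ℤ) = q * a := by exact_mod_cast ha
  have hbz : (l : ℤ) = p * b := by exact_mod_cast hb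
  have hcz : (l : ℤ) = (q + p) * c := by exact_mod_cast hc
  have hdz : (l : ℤ) = C * d := by exact_mod_cast hd
  have hqz : (q : ℤ) = p + C := by exact_mod_cast hqe
  have N1 : (q : ℤ) * k1 = q * Y - p * (l * w) := by
    rw [K1, hc1, haz]; push_cast; ring
  have N2 : (p : ℤ) * k2 = p * Y + q * (l * w) := by
    rw [K2, hc2, hbz]; push_cast; ring
  have N3 : ((q : ℤ) + p) * k3 = (q + p) * Y + C * (l * w) := by
    rw [K3, hc3, hcz]; push_cast; ring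
  have N4 : (C : ℤ) * k4 = C * Y - (q + p) * (l * w) := by
    rw [K4, hc4, hdz]; push_cast; ring
  have E1 : q * k1 = p * k2 + C * k4 := by
    have : (q : ℤ) * k1 = p * k2 + C * k4 := by
      rw [N1, N2, N4, hqz]; ring
    exact_mod_cast this
  have E2 : q * k1 + p * k2 = (q + p) * k3 := by
    have : (q : ℤ) * k1 + p * k2 = (q + p) * k3 := by
      rw [N1, N2, N3, hqz]; ring
    exact_mod_cast this
  have E3 : (q * k1) ^ 2 + (p * k2) ^ 2 = (q ^ 2 + p ^ 2) * (Y ^ 2 + (l * w) ^ 2) := by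
    have : ((q : ℤ) * k1) ^ 2 + (p * k2) ^ 2 = (q ^ 2 + p ^ 2) * (Y ^ 2 + (l * w) ^ 2) := by
      rw [N1, N2]; ring
    exact_mod_cast this
  have Z1 : 0 < k1 := by rw [hk1]; exact Int.natAbs_pos.2 P1.ne'
  have Z2 : 0 < k2 := by rw [hk2]; exact Int.natAbs_pos.2 P2.ne'
  have Z3 : 0 < k3 := by rw [hk3]; exact Int.natAbs_pos.2 P3.ne'
  have Z4 : 0 < k4 := by rw [hk4]; exact Int.natAbs_pos.2 P4.ne'
  have QF : ∀ (x : ℤ) (k : ℕ), (k : ℤ) = (Y : ℤ) + x * w →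
      (∀ r ∈ Q, ¬ (r : ℤ) ∣ (Y : ℤ) + x * w) → ∀ r ∈ Q, ¬ r ∣ k := by
    intro x k hk hh r hr hdv
    apply hh r hr
    rw [← hk]
    exact_mod_cast hdv
  have T1 := QF c1 k1 K1 Q1
  have T2 := QF c2 k2 K2 Q2
  have T3 := QF c3 k3 K3 Q3
  have T4 := QF c4 k4 K4 Q4
  have hDl : 0 < 2 * D * l₁ * w₁ := by
    rcases Nat.eq_zero_or_pos (2 * D * l₁ * w₁) with h0 | h0
    · have h1 := hs.Xq
      have h2 := hs.XB
      have h3 := hs.qB
      rw [h0, Nat.coprime_zero_left] at h1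
      omega
    · exact h0
  have hD0 : 0 < D := by
    rcases Nat.eq_zero_or_pos D with h0 | h0
    · rw [h0] at hDl; simp at hDl
    · exact h0
  have hDM : D ≤ M := by
    have h1 := hs.X_le_M
    have h2 : 0 < l₁ * w₁ := by
      rcases Nat.eq_zero_or_pos (l₁ * w₁) with h0 | h0
      · rw [hs.p_eq, h0, zero_mul] at hp0
        exact absurd hp0 (lt_irrefl _)
      · exact h0
    have h3 : D ≤ 2 * D * l₁ * w₁ := by
      calc D ≤ D * (2 * (l₁ * w₁)) := Nat.le_mul_of_pos_right _ (by omega)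
        _ = 2 * D * l₁ * w₁ := by ring
    omega
  have CM : ∀ (x : ℤ) (k : ℕ), k = ((Y : ℤ) + x * w).natAbs → ∀ t, 0 < t → t ≤ M →
      t.Coprime k := by
    intro x k hk t ht htM
    rw [hk]
    exact hP.coprM ht htM
  have CN : ∀ t, 0 < t → t ≤ M → t.Coprime (Y ^ 2 + (l * w) ^ 2) := by
    intro t ht htM
    exact hP.copr_nu fun r hr hrt =>
      hP.small r hr (Or.inl (le_trans (Nat.le_of_dvd ht hrt) htM))
  have hsmall : ∀ t, 0 < t → t ≤ M → ∀ r, r.Prime → r ∣ t * l → r ∣ w := by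
    intro t ht htM r hr hd'
    rcases hr.dvd_mul.1 hd' with h' | h'
    · exact hP.small r hr (Or.inl (le_trans (Nat.le_of_dvd ht h') htM))
    · exact hP.small r hr (Or.inr (Or.inr h'))
  have k12 : k1.Coprime k2 := by
    rw [hk1, hk2]
    refine hP.copr_pair (t := (q ^ 2 + p ^ 2) * l) (s := q * p) (hsmall _ (by positivity) hVM) ?_
    rw [hc1, hc2]
    push_cast
    have e1 : ((q : ℤ) * b - -((p : ℤ) * a)) * (q * p) = q ^ 2 * (p * b) + p ^ 2 * (q * a) := by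
      ring
    rw [e1, ← haz, ← hbz]; ring
  have k34 : k3.Coprime k4 := by
    rw [hk3, hk4]
    have hE : ∀ r, r.Prime → r ∣ 2 * ((q ^ 2 + p ^ 2) * l) → r ∣ w := by
      intro r hr hd'
      rcases hr.dvd_mul.1 hd' with h' | h'
      · exact hP.small r hr (Or.inl (le_trans (Nat.le_of_dvd two_pos h') hM))
      · exact hsmall _ (by positivity) hVM r hr h'
    refine hP.copr_pair (t := 2 * ((q ^ 2 + p ^ 2) * l)) (s := -((q + p) * C)) hE ?_
    rw [hc3, hc4]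
    push_cast
    have e1 : (-(((q : ℤ) + p) * d) - (C : ℤ) * c) * -((q + p) * C) =
        (q + p) ^ 2 * (C * d) + C ^ 2 * ((q + p) * c) := by
      ring
    rw [e1, ← hcz, ← hdz, hqz]; ring
  have hKr : (4 : ℝ) ≤ K := by exact_mod_cast hK
  have hrho : 0 ≤ 1 - 4 / (K : ℝ) := by
    rw [sub_nonneg, div_le_one (by linarith)]; exact hKr
  have R12 := hP.ratio hK B1 B2
  have R21 := hP.ratio hK B2 B1
  rw [← hk1, ← hk2] at R12 R21
  refine ⟨q * k1, B * k2, p * k2, C * k4, ?_⟩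
  have hMM : M ≤ M * (Y + l * w) ^ 2 := Nat.le_mul_of_pos_right _ (by positivity)
  refine
    { p_eq := by rw [hs.p_eq]; ring
      q_eq := E1
      B_pos := Nat.mul_pos hB0 Z2
      C_pos := Nat.mul_pos hC0 Z4
      p_pos := Nat.mul_pos hp0 Z2
      fq := ?_
      fB := ?_
      fS := ?_
      fC := ?_
      fV := ?_
      Qfr := qfree_mul hQ hs.Qfr T1
      QB := qfree_mul hQ hs.QB T2
      QS := by rw [E2]; exact qfree_mul hQ hs.QS T3
      QC := qfree_mul hQ hs.QC T4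
      QV := by rw [E3]; exact qfree_mul hQ hs.QV hP.nu
      Xq := Nat.Coprime.mul_right hs.Xq (CM _ _ hk1 _ hDl hs.X_le_M)
      XB := Nat.Coprime.mul_right hs.XB (CM _ _ hk2 _ hDl hs.X_le_M)
      qB := ?_
      DS := by rw [E2]; exact Nat.Coprime.mul_right hs.DS (CM _ _ hk3 _ hD0 hDM)
      DC := Nat.Coprime.mul_right hs.DC (CM _ _ hk4 _ hD0 hDM)
      SC := ?_
      DV := by rw [E3]; exact Nat.Coprime.mul_right hs.DV (CN _ hD0 hDM)
      le_M := ?_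
      X_le_M := le_trans hs.X_le_M (le_trans hMM hM')
      lo := ?_
      up := ?_ }
  · rw [hf q k1 hq0 Z1 (CM _ _ hk1 q hq0 (by omega)), hs.fq, hk1, F1, mul_assoc]
  · rw [hf B k2 hB0 Z2 (CM _ _ hk2 B hB0 (by omega)), hs.fB, hk2, F2]
  · rw [E2, hf (q + p) k3 (by omega) Z3 (CM _ _ hk3 _ (by omega) hSM), hs.fS, hk3, F3, mul_assoc]
  · rw [hf C k4 hC0 Z4 (CM _ _ hk4 C hC0 (by omega)), hs.fC, hk4, F4, mul_assoc]
  · rw [E3, hf _ _ (by positivity) (by positivity) (CN _ (by positivity) hVM), hs.fV]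
  · refine Nat.Coprime.mul_right (Nat.Coprime.mul_left hs.qB ?_) (Nat.Coprime.mul_left ?_ k12)
    · exact (CM _ _ hk1 B hB0 (by omega)).symm
    · exact CM _ _ hk2 q hq0 (by omega)
  · rw [E2]
    refine Nat.Coprime.mul_right (Nat.Coprime.mul_left hs.SC ?_) (Nat.Coprime.mul_left ?_ k34)
    · exact (CM _ _ hk3 C hC0 (by omega)).symm
    · exact CM _ _ hk4 (q + p) (by omega) hSM
  · rw [E2, mul_pow]
    refine le_trans (Nat.mul_le_mul hs.le_M (Nat.pow_le_pow_left ?_ 2)) hM'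
    have h1 : (k3 : ℤ) ≤ ((Y + l * w : ℕ) : ℤ) := by
      rw [K3, hc3]
      push_cast
      have h2 : (C : ℤ) * c ≤ l := by
        have : C * c ≤ l := by
          rw [hc]; exact Nat.mul_le_mul_right _ (by omega)
        exact_mod_cast this
      have h3 : (C : ℤ) * c * w ≤ l * w := mul_le_mul_of_nonneg_right h2 (by positivity)
      linarith
    exact_mod_cast h1
  · push_cast
    calc (1 - 4 / (K : ℝ)) ^ (m + 1) * (q * k1)
        = ((1 - 4 / (K : ℝ)) ^ m * q) * ((1 - 4 / (K : ℝ)) * k1) := by ring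
      _ ≤ (B * Y₁) * k2 := mul_le_mul hs.lo R12 (by positivity) (by positivity)
      _ = B * k2 * Y₁ := by ring
  · push_cast
    calc (1 - 4 / (K : ℝ)) ^ (m + 1) * (B * k2 * Y₁)
        = ((1 - 4 / (K : ℝ)) ^ m * (B * Y₁)) * ((1 - 4 / (K : ℝ)) * k2) := by ring
      _ ≤ q * k1 := mul_le_mul hs.up R21 (by positivity) (by positivity)

end Pool.Agent.Work.MP_0f91f8_co.Mul
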