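import Pool.Agent.Work.MP_0f91f8_co.Mul.Defs

/-!
The basic step: a uniform Gallai theorem with side conditions.
-/

namespace Pool.Agent.Work.MP_0f91f8_co.Mul

open Finset Combinatorics

/-- The form of the lemma `crt` which is used here. -/
def Crt : Prop := ∀ (R : ℕ) (S : Finset ℤ) (P : Finset ℕ),
    (∀ p ∈ P, p.Prime ∧ S.card < p ∧ ¬ p ∣ R) → ∀ A₀ : ℕ,
    ∃ A : ℕ, A₀ ≤ A ∧ ∀ p ∈ P, ∀ σ ∈ S, ¬ (p : ℤ) ∣ 1 + R * (A + σ)

theorem step (hcrt : Crt) {G : Type} [Finite G] (f : ℕ → G) {Q : Set ℕ} (hQ : ∀ q ∈ Q, q.Prime)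
    (hS : Siev Q) (n N : ℕ) :
    ∃ b₀ : ℕ, ∀ b ≥ b₀, ∀ (l P : ℕ), 0 < P → (∀ p, p.Prime → p ∣ P → b < p ∧ p ∉ Q) →
      ∀ (x : Fin n → ℕ) (X₀ : ℕ), ∃ Y k : ℕ, 1 ≤ k ∧ k ≤ b ∧ X₀ ≤ Y ∧ 0 < Y ∧
        Y.Coprime b.factorial ∧ Y.Coprime P ∧ (∀ q ∈ Q, ¬ q ∣ Y) ∧
        ∀ i, (∀ c : ℤ, |c| ≤ N → 0 < (Y : ℤ) + c * (k * b.factorial * x i : ℕ) ∧
          f ((Y : ℤ) + c * (k * b.factorial * x i : ℕ)).natAbs = f Y ∧
          ∀ q ∈ Q, ¬ (q : ℤ) ∣ Y + c * (k * b.factorial * x i : ℕ)) ∧
          ∀ q ∈ Q, ¬ q ∣ Y ^ 2 + (l * (k * b.factorial * x i)) ^ 2 := by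
  classical
  let α := Option (Fin n × Fin (2 * N + 1))
  obtain ⟨ι, _inst, hι⟩ := Line.exists_mono_in_high_dimension α G
  set H : ℕ := Fintype.card (ι → α) * (1 + (Fintype.card ι + 1) * n) with hH
  obtain ⟨b₁, hb₁⟩ := hS H
  refine ⟨max b₁ (max H (Fintype.card ι)), fun b hb l P hP hPp x X₀ => ?_⟩
  have hbb₁ : b₁ ≤ b := le_trans (le_max_left _ _) hb
  have hbH : H ≤ b := le_trans (le_trans (le_max_left _ _) (le_max_right _ _)) hb
  have hbι : Fintype.card ι ≤ b := le_trans (le_trans (le_max_right _ _) (le_max_right _ _)) hb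
  let val : α → ℤ := fun o => match o with
    | none => 0
    | some p => ((p.2 : ℕ) - N : ℤ) * x p.1
  let sg : (ι → α) → ℤ := fun v => ∑ j, val (v j)
  set S : Finset ℤ := univ.image sg with hSdef
  have hScard : S.card ≤ Fintype.card (ι → α) := by
    rw [hSdef]
    exact le_trans card_image_le (by simp)
  have hmemS : ∀ v, sg v ∈ S := fun v => mem_image_of_mem _ (mem_univ v)
  set M0 : ℕ := ∑ σ ∈ S, σ.natAbs with hM0
  have hM0le : ∀ σ ∈ S, -(M0 : ℤ) ≤ σ := by
    intro σ hσ
    have h1 : σ.natAbs ≤ M0 := single_le_sum (f := fun σ : ℤ => σ.natAbs)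
      (fun _ _ => Nat.zero_le _) hσ
    have h2 : (σ.natAbs : ℤ) ≤ M0 := by exact_mod_cast h1
    have h3 := neg_abs_le σ
    rw [Int.abs_eq_natAbs] at h3
    linarith
  obtain ⟨A', hA'0, hA'⟩ := hcrt b.factorial S P.primeFactors (by
    intro p hp
    have hpp := Nat.prime_of_mem_primeFactors hp
    have h1 := hPp p hpp (Nat.dvd_of_mem_primeFactors hp)
    refine ⟨hpp, ?_, ?_⟩
    · have : Fintype.card (ι → α) ≤ H := by
        rw [hH]; exact Nat.le_mul_of_pos_right _ (by omega)
      omega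
    · rw [hpp.dvd_factorial]; omega) M0
  have hnn : ∀ v, 0 ≤ (A' : ℤ) + sg v := by
    intro v
    have h1 := hM0le _ (hmemS v)
    have h2 : (M0 : ℤ) ≤ A' := by exact_mod_cast hA'0
    linarith
  let sp : (ι → α) → ℕ := fun v => 1 + b.factorial * (A' + sg v).toNat
  have hsp : ∀ v, (sp v : ℤ) = 1 + b.factorial * (A' + sg v) := by
    intro v
    simp only [sp]
    push_cast
    rw [Int.toNat_of_nonneg (hnn v)]
  set m : ℕ := b.factorial * P with hm
  have hmpos : 0 < m := Nat.mul_pos (Nat.factorial_pos b) hP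
  let ee : Option (Fin (Fintype.card ι + 1) × Fin n) → ℕ := fun o => match o with
    | none => 0
    | some p => l * (p.1 * b.factorial * x p.2)
  set E : Finset (ℕ × ℕ) := (univ : Finset ((ι → α) ×
    Option (Fin (Fintype.card ι + 1) × Fin n))).image (fun p => (sp p.1, ee p.2)) with hE
  have hEcard : E.card ≤ H := by
    rw [hE]
    refine le_trans card_image_le ?_
    rw [card_univ, Fintype.card_prod, Fintype.card_option, Fintype.card_prod, Fintype.card_fin,
      Fintype.card_fin, hH, add_comm ((Fintype.card ι + 1) * n) 1]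
  obtain ⟨X₁, hX₁⟩ := hb₁ b hbb₁ m hmpos (by
    intro q hq hbq hdvd
    rcases (hQ q hq).dvd_mul.1 hdvd with h | h
    · have := ((hQ q hq).dvd_factorial).1 h
      omega
    · exact (hPp q (hQ q hq) h).2 hq) E hEcard 1 one_pos
  obtain ⟨A, hAX, -, hA⟩ := hX₁ (max X₁ X₀) (le_max_left _ _)
  have hAX₀ : X₀ ≤ A := le_trans (le_max_right _ _) hAX
  let pos : (ι → α) → ℕ := fun v => m * A + sp v
  have hposz : ∀ v, (pos v : ℤ) = m * A + 1 + b.factorial * (A' + sg v) := by
    intro v
    simp only [pos]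
    push_cast
    rw [hsp]
    ring
  obtain ⟨L, col, hL⟩ := hι fun v => f (pos v)
  have hL' : ∀ a : α, f (pos (L a)) = col := fun a => hL a
  set k : ℕ := (univ.filter (fun i => L.idxFun i = none)).card with hk
  have hk1 : 1 ≤ k := by
    refine card_pos.mpr ⟨L.proper.choose, ?_⟩
    rw [mem_filter]
    exact ⟨mem_univ _, L.proper.choose_spec⟩
  have hkι : k ≤ Fintype.card ι := by
    rw [hk]
    exact le_trans (card_le_univ _) le_rfl
  -- the position on the line
  have hsgL : ∀ a : α, sg (L a) = sg (L none) + k * val a := by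
    intro a
    simp only [sg]
    have h1 : ∀ i, val (L a i) = val (L none i) + if L.idxFun i = none then val a else 0 := by
      intro i
      rcases h : L.idxFun i with _ | y
      · rw [L.apply_none _ _ h, L.apply_none _ _ h]
        simp [val]
      · rw [Line.apply_some h, Line.apply_some h]
        simp
    rw [sum_congr rfl (fun i _ => h1 i), sum_add_distrib]
    congr 1
    rw [← sum_filter, sum_const, nsmul_eq_mul]
  set Y : ℕ := pos (L none) with hY
  have hYpos : 0 < Y := by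
    have h1 : 0 < sp (L none) := by simp only [sp]; omega
    have h2 : Y = m * A + sp (L none) := rfl
    omega
  have hposL : ∀ a : α, (pos (L a) : ℤ) = Y + k * b.factorial * val a := by
    intro a
    rw [hY, hposz, hposz, hsgL a]
    ring
  have hcop : ∀ v, (pos v).Coprime b.factorial := by
    intro v
    have : pos v = 1 + b.factorial * (P * A + (A' + sg v).toNat) := by
      simp only [pos, sp, hm]; ring
    rw [this]
    simp
  have hQfree : ∀ v, ∀ q ∈ Q, ¬ q ∣ pos v := by
    intro v q hq hdvd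
    by_cases hqb : q ≤ b
    · have h1 : q ∣ b.factorial := ((hQ q hq).dvd_factorial).2 hqb
      have h2 := Nat.dvd_gcd hdvd h1
      rw [Nat.Coprime.gcd_eq_one (hcop v)] at h2
      exact (hQ q hq).one_lt.ne' (Nat.dvd_one.1 h2)
    · refine hA q hq (by omega) (sp v, 0) ?_ ?_
      · rw [hE, mem_image]
        exact ⟨(v, none), mem_univ _, rfl⟩
      · simp only
        have h3 : q ∣ (m * A + sp v) ^ 2 := dvd_pow hdvd two_ne_zero
        simpa using h3
  refine ⟨Y, k, hk1, le_trans hkι hbι, ?_, hYpos, hcop _, ?_, hQfree _, ?_⟩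
  · have h1 : A ≤ m * A := Nat.le_mul_of_pos_left _ hmpos
    have h2 : m * A ≤ Y := by simp only [hY, pos]; omega
    omega
  · refine Nat.Coprime.symm (Nat.coprime_of_dvd ?_)
    intro p hp hpP hpY
    have h0 : p ∈ P.primeFactors := Nat.mem_primeFactors.2 ⟨hp, hpP, hP.ne'⟩
    refine hA' p h0 _ (hmemS (L none)) ?_
    have h1 : (p : ℤ) ∣ (Y : ℤ) := by exact_mod_cast hpY
    rw [hY, hposz] at h1
    have h2 : (p : ℤ) ∣ (m : ℤ) * A := by
      have : p ∣ m := by rw [hm]; exact hpP.mul_left _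
      exact Dvd.dvd.mul_right (by exact_mod_cast this) _
    have h3 := dvd_sub h1 h2
    have h4 : (m : ℤ) * A + 1 + b.factorial * (A' + sg (L none)) - (m : ℤ) * A =
        1 + b.factorial * (A' + sg (L none)) := by ring
    rwa [h4] at h3
  · intro i
    refine ⟨?_, ?_⟩
    · intro c hc
      obtain ⟨hc1, hc2⟩ := abs_le.1 hc
      have hlt : (c + N).toNat < 2 * N + 1 := by
        rw [Int.toNat_lt (by linarith)]
        push_cast
        linarith
      set a : α := some (i, ⟨(c + N).toNat, hlt⟩) with ha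
      have hval : val a = c * x i := by
        simp only [ha, val]
        rw [Int.toNat_of_nonneg (by linarith)]
        ring
      have hpa : (Y : ℤ) + c * (k * b.factorial * x i : ℕ) = (pos (L a) : ℤ) := by
        rw [hposL a, hval]
        push_cast
        ring
      rw [hpa]
      refine ⟨?_, ?_, ?_⟩
      · have : 0 < pos (L a) := by
          have : 0 < sp (L a) := by simp only [sp]; omega
          simp only [pos]; omega
        exact_mod_cast this
      · rw [Int.natAbs_natCast, hL' a, hY, hL' none]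
      · intro q hq hdvd
        exact hQfree (L a) q hq (by exact_mod_cast hdvd)
    · intro q hq hdvd
      by_cases hqb : q ≤ b
      · have h1 : q ∣ b.factorial := ((hQ q hq).dvd_factorial).2 hqb
        have h2 : q ∣ (l * (k * b.factorial * x i)) ^ 2 := by
          refine dvd_pow ?_ two_ne_zero
          exact ((h1.mul_left k).mul_right _).mul_left _
        have h3 : q ∣ Y ^ 2 := (Nat.dvd_add_left h2).1 hdvd
        exact hQfree (L none) q hq ((hQ q hq).dvd_of_dvd_pow h3)
      · refine hA q hq (by omega) (sp (L none), l * (k * b.factorial * x i)) ?_ ?_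
        · rw [hE, mem_image]
          refine ⟨(L none, some (⟨k, by omega⟩, i)), mem_univ _, rfl⟩
        · exact hdvd

end Pool.Agent.Work.MP_0f91f8_co.Mul
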